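import Pool.Agent.Q297.CR.MvgB

/-!
# Project CR, job MVG: products of Dirichlet polynomials in mean square (helper297)
-/

set_option autoImplicit false

namespace Pool.Agent.Q297.CR

open Finset Filter MeasureTheory
open Pool.Agent.Q236.CR

/-- the decomposition into boxes -/
lemma decomp {r : ℕ} (F : Fin r → ℕ → ℂ) (η : ℝ) (hη : 0 < η) (X x1 x2 N : ℕ) (hx2 : x2 ≤ 9 * X)
    (hN : N = ⌊Real.log (9 * X) / η⌋₊) (τ : ℝ) :
    PD F x1 x2 τ =
      ∑ l ∈ (Fintype.piFinset (fun _ : Fin r => Finset.range (N + 1))).filter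
        (fun l => (x1 : ℝ) < Real.exp (η * ∑ i, (l i : ℝ)) ∧ Real.exp (η * ∑ i, ((l i : ℝ) + 1)) ≤ x2),
        MP F (Fintype.piFinset fun i => cell η (l i)) τ +
      MP F (((Fintype.piFinset (fun _ : Fin r => Finset.Icc 1 x2)).filter
        (fun v => x1 < ∏ i, v i ∧ ∏ i, v i ≤ x2)).filter
        (fun v => ¬ ((x1 : ℝ) < Real.exp (η * ∑ i, (idx η (v i) : ℝ)) ∧
          Real.exp (η * ∑ i, ((idx η (v i) : ℝ) + 1)) ≤ x2))) τ := by
  classical
  have h0 : PD F x1 x2 τ = MP F ((Fintype.piFinset (fun _ : Fin r => Finset.Icc 1 x2)).filter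
        (fun v => x1 < ∏ i, v i ∧ ∏ i, v i ≤ x2)) τ := rfl
  rw [h0]
  set V := (Fintype.piFinset (fun _ : Fin r => Finset.Icc 1 x2)).filter
        (fun v => x1 < ∏ i, v i ∧ ∏ i, v i ≤ x2) with hV
  set inn : (Fin r → ℕ) → Prop := fun l => (x1 : ℝ) < Real.exp (η * ∑ i, (l i : ℝ)) ∧
    Real.exp (η * ∑ i, ((l i : ℝ) + 1)) ≤ x2 with hinn
  set P' := (Fintype.piFinset (fun _ : Fin r => Finset.range (N + 1))).filter inn with hP'
  have h1 : MP F V τ = MP F (V.filter (fun v => inn (fun i => idx η (v i)))) τ +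
      MP F (V.filter (fun v => ¬ inn (fun i => idx η (v i)))) τ := by
    unfold MP
    rw [Finset.sum_filter_add_sum_filter_not]
  have h2 : MP F (V.filter (fun v => inn (fun i => idx η (v i)))) τ =
      ∑ l ∈ P', MP F (Fintype.piFinset fun i => cell η (l i)) τ := by
    unfold MP
    rw [← Finset.sum_fiberwise_of_maps_to (g := fun v : Fin r → ℕ => fun i => idx η (v i)) (t := P')]
    · refine Finset.sum_congr rfl fun l hl => ?_
      refine Finset.sum_congr ?_ fun _ _ => rfl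
      have hlin : inn l := (Finset.mem_filter.1 hl).2
      ext v
      rw [Finset.mem_filter, Finset.mem_filter, Fintype.mem_piFinset]
      constructor
      · rintro ⟨⟨hv, -⟩, hvl⟩ i
        have hv1 := Finset.mem_Icc.1 ((Fintype.mem_piFinset.1 (Finset.mem_filter.1 hv).1) i)
        rw [mem_cell_iff hη hv1.1]
        exact congrFun hvl i
      · intro hv
        have hv1 : ∀ i, 1 ≤ v i := fun i => cell_pos (hv i)
        have hidx : (fun i => idx η (v i)) = l := funext fun i => (mem_cell_iff hη (hv1 i)).1 (hv i)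
        have g1 := prod_ge l v hv
        have g2 := prod_le l v hv
        have g3 : x1 < ∏ i, v i := by exact_mod_cast hlin.1.trans_le g1
        have g4 : ∏ i, v i ≤ x2 := by exact_mod_cast g2.trans hlin.2
        refine ⟨⟨Finset.mem_filter.2 ⟨Fintype.mem_piFinset.2 fun i => Finset.mem_Icc.2 ⟨hv1 i, ?_⟩, g3, g4⟩, ?_⟩,
          hidx⟩
        · refine le_trans (Nat.le_of_dvd ?_ (Finset.dvd_prod_of_mem v (Finset.mem_univ i))) g4
          exact Nat.pos_of_ne_zero (Finset.prod_ne_zero_iff.2 fun j _ => by have := hv1 j; omega)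
        · rw [hidx]; exact hlin
    · intro v hv
      have hv' := Finset.mem_filter.1 hv
      rw [hP', Finset.mem_filter]
      refine ⟨Fintype.mem_piFinset.2 fun i => ?_, hv'.2⟩
      have hv1 := Finset.mem_Icc.1 ((Fintype.mem_piFinset.1 (Finset.mem_filter.1 hv'.1).1) i)
      rw [Finset.mem_range, Nat.lt_succ_iff, idx, hN]
      apply Nat.floor_le_floor
      apply div_le_div_of_nonneg_right _ hη.le
      apply Real.log_le_log
      · exact_mod_cast hv1.1
      · exact_mod_cast hv1.2.trans hx2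
  rw [h1, h2]

lemma final_bd {r : ℕ} (hr : 1 ≤ r) (X U C D K : ℕ) (L η T0 T T1 T2 : ℝ) (F : Fin r → ℕ → ℂ)
    (hD : D = U + 5 + 4 * r + C) (hK : K = 2 * ((2 * D + 2) * r) + (3 + 4 * r + 2 * C) + (U + 1))
    (hL : L = Real.log X) (hL4 : 2592 ≤ L) (hLr : 27 * r + 1 ≤ L) (hX : 1 ≤ X) (hηD : η = 1 / L ^ (2 * D))
    (hηX : 1 ≤ η * X)
    (hF : ∀ i n, ‖F i n‖ ≤ Real.log (n + 3)) (hT : 0 ≤ T) (hTX : T ≤ X) (h12 : T1 ≤ T2) (h12' : T2 - T1 ≤ T)
    (hτ : ∀ τ ∈ Set.Icc T1 T2, T0 ≤ |τ| ∧ |τ| ≤ T)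
    (hDV : ∀ X Y : ℕ, 1 ≤ Y → ∑ n ∈ Finset.Icc 1 Y, (tr r X n : ℝ) ^ 4 ≤ Y * (1 + Real.log Y) ^ C)
    (hgood : ∀ M : Fin r → ℕ, (∀ i, 1 ≤ M i) → X ≤ ∏ i, M i → ∏ i, M i ≤ 18 ^ r * X →
      ∃ i, Good X T0 T K (F i) (M i))
    (x1 x2 : ℕ) (hx1 : X ≤ x1) (hx2 : x2 ≤ 9 * X) :
    ∫ τ in T1..T2, ‖PD F x1 x2 τ‖ ^ 2 ≤ (X : ℝ) ^ 2 / L ^ U := by
  classical
  have hXr : (1 : ℝ) ≤ X := by exact_mod_cast hX
  have hLp : 0 < L := by linarith
  have hL1 : 1 ≤ L := by linarith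
  have hη : 0 < η := by rw [hηD]; positivity
  rcases lt_or_ge x2 x1 with hx | hx12
  · -- empty sum
    have h0 : ∀ τ, PD F x1 x2 τ = 0 := by
      intro τ
      unfold PD
      apply Finset.sum_eq_zero
      intro v hv
      have := (Finset.mem_filter.1 hv).2
      omega
    simp only [h0, norm_zero]
    rw [zero_pow two_ne_zero, intervalIntegral.integral_zero]
    positivity
  have hLD : L ≤ L ^ (2 * D) := by
    calc L = L ^ 1 := (pow_one L).symm
      _ ≤ L ^ (2 * D) := pow_le_pow_right₀ hL1 (by omega)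
  have hηL : η * L ≤ 1 := by
    rw [hηD, one_div, inv_mul_le_iff₀ (by positivity)]; linarith
  have hη2 : η ≤ Real.log 2 := by
    have := Real.log_two_gt_d9
    nlinarith
  have hrη : r * η ≤ 1 := by nlinarith
  set N : ℕ := ⌊Real.log (9 * X) / η⌋₊ with hN
  set inn : (Fin r → ℕ) → Prop := fun l => (x1 : ℝ) < Real.exp (η * ∑ i, (l i : ℝ)) ∧
    Real.exp (η * ∑ i, ((l i : ℝ) + 1)) ≤ x2 with hinn
  set P' := (Fintype.piFinset (fun _ : Fin r => Finset.range (N + 1))).filter inn with hP'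
  set Q2 := (((Fintype.piFinset (fun _ : Fin r => Finset.Icc 1 x2)).filter
        (fun v => x1 < ∏ i, v i ∧ ∏ i, v i ≤ x2)).filter
        (fun v => ¬ inn (fun i => idx η (v i)))) with hQ2
  have hdec : ∀ τ, PD F x1 x2 τ = ∑ l ∈ P', MP F (Fintype.piFinset fun i => cell η (l i)) τ + MP F Q2 τ :=
    fun τ => decomp F η hη X x1 x2 N hx2 hN τ
  have hx2r : (x2 : ℝ) ≤ 9 * X := by exact_mod_cast hx2
  have hx1r : (X : ℝ) ≤ x1 := by exact_mod_cast hx1
  -- the number of boxes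
  have hPc : (P'.card : ℝ) ≤ L ^ ((2 * D + 2) * r) := by
    have h1 : P'.card ≤ (N + 1) ^ r := by
      refine (Finset.card_filter_le _ _).trans ?_
      rw [Fintype.card_piFinset]
      simp
    have h2 : ((N + 1 : ℕ) : ℝ) ≤ L ^ (2 * D + 2) := by
      have h3 : (N : ℝ) ≤ Real.log (9 * X) / η := Nat.floor_le (div_nonneg (Real.log_nonneg (by linarith)) hη.le)
      rw [hηD, div_div_eq_mul_div, div_one] at h3
      have h4 : 1 + Real.log (9 * X) ≤ L ^ 2 := log_bd hL hL4 hX (by positivity) (by linarith)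
      have h5 : 1 ≤ L ^ (2 * D) := one_le_pow₀ hL1
      push_cast
      calc (N : ℝ) + 1 ≤ (1 + Real.log (9 * X)) * L ^ (2 * D) := by nlinarith
        _ ≤ L ^ 2 * L ^ (2 * D) := mul_le_mul_of_nonneg_right h4 (by positivity)
        _ = _ := by rw [← pow_add]; congr 1; ring
    calc (P'.card : ℝ) ≤ (((N + 1) ^ r : ℕ) : ℝ) := by exact_mod_cast h1
      _ = ((N + 1 : ℕ) : ℝ) ^ r := by push_cast; ring
      _ ≤ (L ^ (2 * D + 2)) ^ r := pow_le_pow_left₀ (Nat.cast_nonneg _) h2 r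
      _ = _ := by rw [← pow_mul]
  -- the boxes
  have hbox : ∀ l ∈ P', ∫ τ in T1..T2, ‖MP F (Fintype.piFinset fun i => cell η (l i)) τ‖ ^ 2 ≤
      (X : ℝ) ^ 2 / L ^ K * L ^ (3 + 4 * r + 2 * C) := by
    intro l hl
    have hin : inn l := (Finset.mem_filter.1 hl).2
    obtain ⟨i0, hi0⟩ := hgood (fun i => ⌈Real.exp (l i * η)⌉₊) (fun i => ceil_pos' _)
      (by
        have h1 : Real.exp (η * ∑ i, (l i : ℝ)) ≤ ((∏ i, ⌈Real.exp (l i * η)⌉₊ : ℕ) : ℝ) := by
          rw [Finset.mul_sum, Real.exp_sum]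
          push_cast
          refine Finset.prod_le_prod (fun i _ => (Real.exp_pos _).le) fun i _ => ?_
          rw [mul_comm]
          exact Nat.le_ceil _
        have h2 : (X : ℝ) ≤ ((∏ i, ⌈Real.exp (l i * η)⌉₊ : ℕ) : ℝ) := hx1r.trans (hin.1.le.trans h1)
        exact_mod_cast h2)
      (by
        have h1 : ((∏ i, ⌈Real.exp (l i * η)⌉₊ : ℕ) : ℝ) ≤ 2 ^ r * Real.exp (η * ∑ i, (l i : ℝ)) := by
          rw [Finset.mul_sum, Real.exp_sum]
          push_cast
          have h3 : (2 : ℝ) ^ r * ∏ i : Fin r, Real.exp (η * (l i : ℝ)) =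
              ∏ i : Fin r, (2 * Real.exp (η * (l i : ℝ))) := by
            rw [Finset.prod_mul_distrib]; simp
          rw [h3]
          refine Finset.prod_le_prod (fun i _ => Nat.cast_nonneg _) fun i _ => ?_
          have h4 := (Nat.ceil_lt_add_one (Real.exp_pos (l i * η)).le).le
          have h5 : 1 ≤ Real.exp (l i * η) := Real.one_le_exp (by positivity)
          rw [mul_comm η]
          linarith
        have h2 : Real.exp (η * ∑ i, (l i : ℝ)) ≤ Real.exp (η * ∑ i, ((l i : ℝ) + 1)) := by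
          apply Real.exp_le_exp.2
          apply mul_le_mul_of_nonneg_left _ hη.le
          exact Finset.sum_le_sum fun i _ => by linarith
        have h6 : (2 : ℝ) ^ r * Real.exp (η * ∑ i, (l i : ℝ)) ≤ 18 ^ r * X := by
          have h7 : (18 : ℝ) ^ r = 2 ^ r * 9 ^ r := by rw [← mul_pow]; norm_num
          rw [h7, mul_assoc]
          refine mul_le_mul_of_nonneg_left ?_ (by positivity)
          have h8 : (9 : ℝ) ≤ 9 ^ r := by
            calc (9 : ℝ) = 9 ^ 1 := (pow_one _).symm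
              _ ≤ 9 ^ r := pow_le_pow_right₀ (by norm_num) hr
          have h9 := hin.2
          nlinarith
        have h10 := h1.trans h6
        exact_mod_cast h10)
    exact inner_bd X K C L η T0 T T1 T2 F l hL hL4 hX hη hη2 hF hT h12 h12' hτ hDV i0 hi0
      (hin.2.trans hx2r)
  -- the outer part
  have hsum1 : ∀ v : Fin r → ℕ, ∑ i, ((idx η (v i) : ℝ) + 1) = ∑ i, (idx η (v i) : ℝ) + r := by
    intro v; rw [Finset.sum_add_distrib]; simp
  have hout := outer_bd X D C L η T T1 T2 F hL hL4 hLr hX hηD hηX hrη hF hTX h12 h12' hDV x1 x2 hx12 hx2 Q2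
    ((Finset.filter_subset _ _).trans (Finset.filter_subset _ _))
    (by
      intro v hv
      have hv1 := Finset.mem_filter.1 hv
      have hv2 := Finset.mem_filter.1 hv1.1
      have hv3 : ∀ i, v i ∈ cell η (idx η (v i)) := fun i =>
        (mem_cell_iff hη (Finset.mem_Icc.1 (Fintype.mem_piFinset.1 hv2.1 i)).1).2 rfl
      have g1 := prod_ge (fun i => idx η (v i)) v hv3
      have g2 := prod_le (fun i => idx η (v i)) v hv3
      have g3 : Real.exp (η * ∑ i, ((idx η (v i) : ℝ) + 1)) =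
          Real.exp (r * η) * Real.exp (η * ∑ i, (idx η (v i) : ℝ)) := by
        rw [hsum1, ← Real.exp_add]; ring_nf
      by_cases hc : (x1 : ℝ) < Real.exp (η * ∑ i, (idx η (v i) : ℝ))
      · right
        have hc2 : (x2 : ℝ) < Real.exp (η * ∑ i, ((idx η (v i) : ℝ) + 1)) := by
          by_contra hcc
          exact hv1.2 ⟨hc, not_lt.1 hcc⟩
        refine ⟨?_, hv2.2.2⟩
        have h1 : Real.exp (-(r * η)) * x2 ≤ Real.exp (η * ∑ i, (idx η (v i) : ℝ)) := by
          rw [g3] at hc2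
          rw [Real.exp_neg, inv_mul_le_iff₀ (Real.exp_pos _)]
          exact hc2.le
        exact h1.trans g1
      · left
        refine ⟨hv2.2.1, g2.trans ?_⟩
        rw [g3]
        exact mul_le_mul_of_nonneg_left (not_lt.1 hc) (Real.exp_pos _).le)
    (by
      intro v hv
      exact (Finset.mem_filter.1 (Finset.mem_filter.1 hv).1).2.2)
  -- continuity
  have hcb : ∀ l : Fin r → ℕ, Continuous (MP F (Fintype.piFinset fun i => cell η (l i))) := fun l =>
    MP_cont F _ fun w hw => Finset.prod_ne_zero_iff.2 fun j _ => by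
      have := cell_pos ((Fintype.mem_piFinset.1 hw) j); omega
  have hco : Continuous (MP F Q2) := by
    refine MP_cont F _ fun w hw => Finset.prod_ne_zero_iff.2 fun j _ => ?_
    have h1 := (Finset.mem_filter.1 (Finset.mem_filter.1 hw).1).1
    have := Finset.mem_Icc.1 (Fintype.mem_piFinset.1 h1 j)
    omega
  have hpt : ∀ τ, ‖PD F x1 x2 τ‖ ^ 2 ≤
      2 * (P'.card * ∑ l ∈ P', ‖MP F (Fintype.piFinset fun i => cell η (l i)) τ‖ ^ 2) +
      2 * ‖MP F Q2 τ‖ ^ 2 := by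
    intro τ
    rw [hdec τ]
    have h1 : ‖∑ l ∈ P', MP F (Fintype.piFinset fun i => cell η (l i)) τ‖ ^ 2 ≤
        P'.card * ∑ l ∈ P', ‖MP F (Fintype.piFinset fun i => cell η (l i)) τ‖ ^ 2 :=
      (pow_le_pow_left₀ (norm_nonneg _) (norm_sum_le _ _) 2).trans sq_sum_le_card_mul_sum_sq
    have h2 := norm_add_le (∑ l ∈ P', MP F (Fintype.piFinset fun i => cell η (l i)) τ) (MP F Q2 τ)
    have h3 := norm_nonneg (∑ l ∈ P', MP F (Fintype.piFinset fun i => cell η (l i)) τ + MP F Q2 τ)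
    nlinarith [sq_nonneg (‖∑ l ∈ P', MP F (Fintype.piFinset fun i => cell η (l i)) τ‖ - ‖MP F Q2 τ‖)]
  have hPDc : Continuous fun τ => ‖PD F x1 x2 τ‖ ^ 2 := by
    have : (fun τ => ‖PD F x1 x2 τ‖ ^ 2) = fun τ =>
        ‖∑ l ∈ P', MP F (Fintype.piFinset fun i => cell η (l i)) τ + MP F Q2 τ‖ ^ 2 := by
      funext τ; rw [hdec τ]
    rw [this]
    exact ((continuous_finsetSum _ fun l _ => hcb l).add hco).norm.pow 2
  have hI1 : ∀ l ∈ P', IntervalIntegrable
      (fun τ => ‖MP F (Fintype.piFinset fun i => cell η (l i)) τ‖ ^ 2) volume T1 T2 := fun l _ =>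
    ((hcb l).norm.pow 2).intervalIntegrable _ _
  have hI2 : IntervalIntegrable (fun τ => ∑ l ∈ P', ‖MP F (Fintype.piFinset fun i => cell η (l i)) τ‖ ^ 2)
      volume T1 T2 :=
    (continuous_finsetSum _ fun l _ => (hcb l).norm.pow 2).intervalIntegrable _ _
  have hI3 : IntervalIntegrable (fun τ => ‖MP F Q2 τ‖ ^ 2) volume T1 T2 :=
    (hco.norm.pow 2).intervalIntegrable _ _
  have hs : ∑ l ∈ P', ∫ τ in T1..T2, ‖MP F (Fintype.piFinset fun i => cell η (l i)) τ‖ ^ 2 ≤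
      P'.card * ((X : ℝ) ^ 2 / L ^ K * L ^ (3 + 4 * r + 2 * C)) := by
    calc _ ≤ ∑ _l ∈ P', ((X : ℝ) ^ 2 / L ^ K * L ^ (3 + 4 * r + 2 * C)) := Finset.sum_le_sum hbox
      _ = _ := by rw [Finset.sum_const, nsmul_eq_mul]
  have hq0 : 0 ≤ (X : ℝ) ^ 2 / L ^ K * L ^ (3 + 4 * r + 2 * C) := by positivity
  calc ∫ τ in T1..T2, ‖PD F x1 x2 τ‖ ^ 2
      ≤ ∫ τ in T1..T2, (2 * (P'.card * ∑ l ∈ P', ‖MP F (Fintype.piFinset fun i => cell η (l i)) τ‖ ^ 2) +
          2 * ‖MP F Q2 τ‖ ^ 2) := by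
        refine intervalIntegral.integral_mono_on h12 (hPDc.intervalIntegrable _ _) ?_ fun τ _ => hpt τ
        exact ((hI2.const_mul _).const_mul _).add (hI3.const_mul _)
    _ = 2 * (P'.card * ∑ l ∈ P', ∫ τ in T1..T2, ‖MP F (Fintype.piFinset fun i => cell η (l i)) τ‖ ^ 2) +
          2 * ∫ τ in T1..T2, ‖MP F Q2 τ‖ ^ 2 := by
        rw [intervalIntegral.integral_add ((hI2.const_mul _).const_mul _) (hI3.const_mul _),
          intervalIntegral.integral_const_mul, intervalIntegral.integral_const_mul,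
          intervalIntegral.integral_const_mul, intervalIntegral.integral_finsetSum hI1]
    _ ≤ 2 * (L ^ ((2 * D + 2) * r) * (L ^ ((2 * D + 2) * r) *
          ((X : ℝ) ^ 2 / L ^ K * L ^ (3 + 4 * r + 2 * C)))) +
          2 * ((X : ℝ) ^ 2 * (L ^ (4 + 4 * r + C) / L ^ D)) := by
        have h1 : (P'.card : ℝ) * ∑ l ∈ P', ∫ τ in T1..T2, ‖MP F (Fintype.piFinset fun i => cell η (l i)) τ‖ ^ 2 ≤
            L ^ ((2 * D + 2) * r) * (L ^ ((2 * D + 2) * r) *
              ((X : ℝ) ^ 2 / L ^ K * L ^ (3 + 4 * r + 2 * C))) := by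
          calc (P'.card : ℝ) * ∑ l ∈ P', ∫ τ in T1..T2, ‖MP F (Fintype.piFinset fun i => cell η (l i)) τ‖ ^ 2
              ≤ (P'.card : ℝ) * (P'.card * ((X : ℝ) ^ 2 / L ^ K * L ^ (3 + 4 * r + 2 * C))) :=
                mul_le_mul_of_nonneg_left hs (Nat.cast_nonneg _)
            _ ≤ _ := by gcongr
        linarith
    _ = 4 * (X : ℝ) ^ 2 / L ^ (U + 1) := by
        have h1 : L ^ K = L ^ ((2 * D + 2) * r) * L ^ ((2 * D + 2) * r) * L ^ (3 + 4 * r + 2 * C) * L ^ (U + 1) := by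
          rw [hK, ← pow_add, ← pow_add, ← pow_add]; congr 1; ring
        have h2 : L ^ D = L ^ (4 + 4 * r + C) * L ^ (U + 1) := by
          rw [hD, ← pow_add]; congr 1; ring
        rw [h1, h2]
        field_simp
        ring
    _ ≤ (X : ℝ) ^ 2 / L ^ U := by
        rw [pow_succ L U, div_le_div_iff₀ (by positivity) (by positivity)]
        have h1 : (4 : ℝ) * ((X : ℝ) ^ 2 * L ^ U) ≤ L * ((X : ℝ) ^ 2 * L ^ U) :=
          mul_le_mul_of_nonneg_right (by linarith) (by positivity)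
        linarith

/-- **MVG** -/
theorem mvg (hDV : S_DV) : S_MVG := by
  intro r U hr
  obtain ⟨C, hC⟩ := hDV r
  set D : ℕ := U + 5 + 4 * r + C with hD
  set K : ℕ := 2 * ((2 * D + 2) * r) + (3 + 4 * r + 2 * C) + (U + 1) with hK
  have ev1 : ∀ᶠ x : ℝ in atTop, (2592 : ℝ) + (27 * r + 1) ≤ Real.log x :=
    Real.tendsto_log_atTop.eventually_ge_atTop _
  have ev2 : ∀ᶠ x : ℝ in atTop, ‖Real.log x ^ (2 * D)‖ ≤ 1 * ‖id x‖ :=
    (Real.isLittleO_pow_log_id_atTop (n := 2 * D)).bound zero_lt_one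
  have ev3 := (tendsto_natCast_atTop_atTop (R := ℝ)).eventually (ev1.and (ev2.and (eventually_ge_atTop 1)))
  obtain ⟨X₀, hX₀⟩ := eventually_atTop.1 ev3
  refine ⟨K, X₀, fun X hX T0 T hT0 hT0T hTX F hF hgood x1 x2 hx1 hx2 => ?_⟩
  obtain ⟨g1, g2, g3⟩ := hX₀ X hX
  have hX1 : 1 ≤ X := by exact_mod_cast g3
  have hr0 : (0 : ℝ) ≤ r := Nat.cast_nonneg r
  have hL4 : 2592 ≤ Real.log X := by linarith
  have hLr : 27 * (r : ℝ) + 1 ≤ Real.log X := by linarith
  have hLp : 0 < Real.log X := by linarith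
  have hηX : 1 ≤ 1 / Real.log X ^ (2 * D) * X := by
    rw [one_mul, Real.norm_of_nonneg (by positivity), id, Real.norm_of_nonneg (by positivity)] at g2
    rw [one_div, le_inv_mul_iff₀ (by positivity), mul_one]
    exact g2
  have hT : 0 ≤ T := hT0.trans hT0T
  constructor
  · exact final_bd hr X U C D K (Real.log X) _ T0 T T0 T F hD hK rfl hL4 hLr hX1 rfl hηX hF hT hTX hT0T
      (by linarith) (fun τ hτ => by rw [abs_of_nonneg (hT0.trans hτ.1)]; exact ⟨hτ.1, hτ.2⟩) hC hgood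
      x1 x2 hx1 hx2
  · exact final_bd hr X U C D K (Real.log X) _ T0 T (-T) (-T0) F hD hK rfl hL4 hLr hX1 rfl hηX hF hT hTX
      (by linarith) (by linarith)
      (fun τ hτ => by
        rw [abs_of_nonpos (by linarith [hτ.2])]
        exact ⟨by linarith [hτ.2], by linarith [hτ.1]⟩) hC hgood x1 x2 hx1 hx2

end Pool.Agent.Q297.CR
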