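import Pool.Agent.Q297.CR.ObA

/-!
# Project CR, job OB: one random polynomial (helper297)
-/

set_option autoImplicit false

namespace Pool.Agent.Q297.CR

open Finset Filter
open Pool.Agent.Q236.CR
open Pool.Agent.H300R2.BH (fz)
open Pool.Agent.H300R2.FB (bx)

lemma two_sq (a b : ℂ) : ‖a + b‖ ^ 2 ≤ 2 * ‖a‖ ^ 2 + 2 * ‖b‖ ^ 2 := by
  have h := norm_add_le a b
  have h0 := norm_nonneg (a + b)
  nlinarith [sq_nonneg (‖a‖ - ‖b‖)]

lemma triv_bd (Lx : ℝ) (hLx : 0 ≤ Lx) (F : ℤ → ℂ) (hF : ∀ v, ‖F v‖ ≤ Lx) (w : ℕ → ℂ) (hw : ∀ n, ‖w n‖ ≤ 1)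
    (v : ℕ → ℤ) (S : Finset ℕ) (N : ℕ) (hS : S.card ≤ N) :
    ‖∑ n ∈ S, w n * F (v n)‖ ^ 2 ≤ (N * Lx) ^ 2 := by
  have h1 : ‖∑ n ∈ S, w n * F (v n)‖ ≤ N * Lx := by
    calc ‖∑ n ∈ S, w n * F (v n)‖ ≤ ∑ n ∈ S, ‖w n * F (v n)‖ := norm_sum_le _ _
      _ ≤ ∑ _n ∈ S, Lx := by
          refine Finset.sum_le_sum fun n _ => ?_
          rw [norm_mul]
          calc ‖w n‖ * ‖F (v n)‖ ≤ 1 * Lx := mul_le_mul (hw n) (hF _) (norm_nonneg _) zero_le_one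
            _ = Lx := one_mul _
      _ = S.card * Lx := by rw [Finset.sum_const, nsmul_eq_mul]
      _ ≤ N * Lx := by
          refine mul_le_mul_of_nonneg_right ?_ hLx
          exact_mod_cast hS
  exact pow_le_pow_left₀ (norm_nonneg _) h1 2

/-- the sum over the box, one function on the integers -/
lemma ob_one (s U H K M I K1 : ℕ) (Lx : ℝ) (F : ℤ → ℂ) (g : ℕ → ℤ) (w : ℕ → ℂ) (hK1 : K1 ≤ K)
    (hLx : 0 < Lx) (hFb : ∀ v, ‖F v‖ ≤ Lx) (hw : ∀ n, ‖w n‖ ≤ 1) (hI : H ≤ 2 ^ I * M)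
    (hENG : ∀ i < I, ∀ σ : ℤ, (σ = 1 ∨ σ = -1) →
      ∑ r ∈ bx (s + 1) (fun _ => H), ∑ a ∈ Finset.Ioc 0 (0 + (2 * H + 1)),
        ∑ d ∈ Finset.Ioc (2 ^ i * M) (2 * (2 ^ i * M)),
          ‖∑ k ∈ Finset.Ioc K1 K, w k * F ((g k - ((H : ℤ) + 1)) + bval (s + 1) r σ a d k)‖ ^ 2 ≤
        (((bx (s + 1) (fun _ => H)).card : ℕ) : ℝ) *
          (((2 * H + 1 : ℕ) : ℝ) * ((2 ^ i * M : ℕ) : ℝ) * (K : ℝ) ^ 2 / Lx ^ (U + 1))) :
    ∑ c ∈ BX s H, ‖∑ n ∈ Finset.Icc 1 K, w n * F (pv s g c n)‖ ^ 2 ≤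
      2 * ((2 * (H : ℝ) + 1) ^ (s + 2) * (K1 * Lx) ^ 2) +
      2 * ((1 + 2 * M) * ((2 * (H : ℝ) + 1) ^ (s + 1) * (K * Lx) ^ 2) +
        2 * ((2 * (H : ℝ) + 1) ^ (s + 1) * (2 ^ I * M) * (K : ℝ) ^ 2 / Lx ^ (U + 1))) := by
  set T : (Fin (s + 2) → ℤ) → ℝ := fun c => ‖∑ n ∈ Finset.Ioc K1 K, w n * F (pv s g c n)‖ ^ 2 with hT
  have hT0 : ∀ c, 0 ≤ T c := fun c => by positivity
  set Φ : ℤ → ℝ := fun t => ∑ r ∈ bx (s + 1) (fun _ => H), ∑ a ∈ Finset.Ioc 0 (0 + (2 * H + 1)),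
    T (mkc H r a t) with hΦ
  have hΦ0 : ∀ t, 0 ≤ Φ t := fun t => Finset.sum_nonneg fun _ _ => Finset.sum_nonneg fun _ _ => hT0 _
  have hsplit : ∀ c, ‖∑ n ∈ Finset.Icc 1 K, w n * F (pv s g c n)‖ ^ 2 ≤ 2 * (K1 * Lx) ^ 2 + 2 * T c := by
    intro c
    have h1 : ∑ n ∈ Finset.Icc 1 K, w n * F (pv s g c n) =
        ∑ n ∈ Finset.Ioc 0 K1, w n * F (pv s g c n) + ∑ n ∈ Finset.Ioc K1 K, w n * F (pv s g c n) := by
      rw [Finset.sum_Ioc_consecutive _ (Nat.zero_le _) hK1]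
      rfl
    rw [h1]
    refine (two_sq _ _).trans (add_le_add ?_ le_rfl)
    refine mul_le_mul_of_nonneg_left ?_ (by norm_num)
    exact triv_bd Lx hLx.le F hFb w hw (fun n => pv s g c n) _ K1 (by simp)
  have hcb : ∀ t, Φ t ≤ (2 * (H : ℝ) + 1) ^ (s + 1) * (K * Lx) ^ 2 := by
    intro t
    calc Φ t ≤ ∑ _r ∈ bx (s + 1) (fun _ => H), ∑ _a ∈ Finset.Ioc 0 (0 + (2 * H + 1)), (K * Lx) ^ 2 := by
          refine Finset.sum_le_sum fun r _ => Finset.sum_le_sum fun a _ => ?_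
          refine triv_bd Lx hLx.le F hFb w hw (fun n => pv s g (mkc H r a t) n) _ K ?_
          rw [Nat.card_Ioc]; omega
      _ = _ := by
          rw [Finset.sum_const, Finset.sum_const, nsmul_eq_mul, nsmul_eq_mul, card_bx, Nat.card_Ioc,
            Nat.zero_add, Nat.sub_zero]
          push_cast
          ring
  have hblock : ∀ i ∈ Finset.range I, ∀ σ : ℤ, (σ = 1 ∨ σ = -1) →
      ∑ d ∈ Finset.Ioc (2 ^ i * M) (2 * (2 ^ i * M)), Φ (σ * d) ≤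
        (2 * (H : ℝ) + 1) ^ (s + 1) * (K : ℝ) ^ 2 / Lx ^ (U + 1) * (2 ^ i * M) := by
    intro i hi σ hσ
    have h1 := hENG i (Finset.mem_range.1 hi) σ hσ
    have h2 : ∑ d ∈ Finset.Ioc (2 ^ i * M) (2 * (2 ^ i * M)), Φ (σ * d) =
        ∑ r ∈ bx (s + 1) (fun _ => H), ∑ a ∈ Finset.Ioc 0 (0 + (2 * H + 1)),
        ∑ d ∈ Finset.Ioc (2 ^ i * M) (2 * (2 ^ i * M)),
          ‖∑ k ∈ Finset.Ioc K1 K, w k * F ((g k - ((H : ℤ) + 1)) + bval (s + 1) r σ a d k)‖ ^ 2 := by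
      rw [hΦ]
      simp only
      rw [Finset.sum_comm]
      refine Finset.sum_congr rfl fun r _ => ?_
      rw [Finset.sum_comm]
      refine Finset.sum_congr rfl fun a _ => Finset.sum_congr rfl fun d _ => ?_
      rw [hT]
      simp only
      congr 2
      refine Finset.sum_congr rfl fun k _ => ?_
      rw [pv_bval]
    rw [h2]
    refine h1.trans (le_of_eq ?_)
    rw [card_bx]
    push_cast
    ring
  calc ∑ c ∈ BX s H, ‖∑ n ∈ Finset.Icc 1 K, w n * F (pv s g c n)‖ ^ 2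
      ≤ ∑ c ∈ BX s H, (2 * (K1 * Lx) ^ 2 + 2 * T c) := Finset.sum_le_sum fun c _ => hsplit c
    _ = 2 * ((2 * (H : ℝ) + 1) ^ (s + 2) * (K1 * Lx) ^ 2) + 2 * ∑ c ∈ BX s H, T c := by
        rw [Finset.sum_add_distrib, Finset.sum_const, nsmul_eq_mul, card_BX, ← Finset.mul_sum]
        ring
    _ ≤ _ := by
        refine add_le_add le_rfl (mul_le_mul_of_nonneg_left ?_ (by norm_num))
        rw [sum_BX]
        change ∑ t ∈ Finset.Icc (-(H : ℤ)) H, Φ t ≤ _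
        refine (cover Φ hΦ0 H M I hI).trans ?_
        refine add_le_add ?_ ?_
        · calc Φ 0 + ∑ d ∈ Finset.Ioc 0 M, (Φ (1 * d) + Φ (-1 * d))
              ≤ (2 * (H : ℝ) + 1) ^ (s + 1) * (K * Lx) ^ 2 +
                ∑ _d ∈ Finset.Ioc 0 M, ((2 * (H : ℝ) + 1) ^ (s + 1) * (K * Lx) ^ 2 +
                  (2 * (H : ℝ) + 1) ^ (s + 1) * (K * Lx) ^ 2) :=
                add_le_add (hcb _) (Finset.sum_le_sum fun d _ => add_le_add (hcb _) (hcb _))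
            _ = _ := by
                rw [Finset.sum_const, nsmul_eq_mul, Nat.card_Ioc]
                push_cast [Nat.sub_zero]
                ring
        · calc ∑ i ∈ Finset.range I, (∑ d ∈ Finset.Ioc (2 ^ i * M) (2 * (2 ^ i * M)), Φ (1 * d) +
                ∑ d ∈ Finset.Ioc (2 ^ i * M) (2 * (2 ^ i * M)), Φ (-1 * d))
              ≤ ∑ i ∈ Finset.range I, ((2 * (H : ℝ) + 1) ^ (s + 1) * (K : ℝ) ^ 2 / Lx ^ (U + 1) * (2 ^ i * M) +
                (2 * (H : ℝ) + 1) ^ (s + 1) * (K : ℝ) ^ 2 / Lx ^ (U + 1) * (2 ^ i * M)) :=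
                Finset.sum_le_sum fun i hi => add_le_add (hblock i hi 1 (Or.inl rfl)) (hblock i hi (-1) (Or.inr rfl))
            _ = 2 * ((2 * (H : ℝ) + 1) ^ (s + 1) * (K : ℝ) ^ 2 / Lx ^ (U + 1)) *
                (M * ∑ i ∈ Finset.range I, (2 : ℝ) ^ i) := by
                rw [Finset.mul_sum, Finset.mul_sum]
                refine Finset.sum_congr rfl fun i _ => ?_
                ring
            _ ≤ 2 * ((2 * (H : ℝ) + 1) ^ (s + 1) * (K : ℝ) ^ 2 / Lx ^ (U + 1)) * (M * 2 ^ I) := by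
                refine mul_le_mul_of_nonneg_left ?_ (by positivity)
                refine mul_le_mul_of_nonneg_left ?_ (by positivity)
                have h3 : ∑ i ∈ Finset.range I, (2 : ℝ) ^ i = 2 ^ I - 1 := by
                  have := geom_sum_eq (show (2 : ℝ) ≠ 1 by norm_num) I
                  rw [this]; norm_num
                rw [h3]; linarith
            _ = _ := by ring

lemma fz_bd (f : ℕ → ℂ) (x : ℕ) (b : ℝ) (hb : 0 ≤ b) (hf : ∀ n ≤ x, ‖f n‖ ≤ b) (v : ℤ) :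
    ‖fz (cut x f) v‖ ≤ b := by
  unfold fz cut
  split_ifs with h1 h2
  · exact hf _ h2
  · simpa using hb
  · simpa using hb

lemma fz_add (f : ℕ → ℂ) (x : ℕ) (hf0 : f 0 = 0) (v : ℤ) (hv : |v| ≤ x) :
    f v.natAbs = fz (cut x f) v + fz (cut x f) (-v) := by
  unfold fz cut
  have h0 := abs_le.1 hv
  rcases lt_trichotomy v 0 with h | h | h
  · rw [if_neg (by omega), if_pos (by omega), if_pos (by omega), zero_add]
    congr 1; omega
  · subst h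
    simp [hf0]
  · rw [if_pos (by omega), if_pos (by omega), if_neg (by omega), add_zero]
    congr 1; omega

lemma sum_neg (s H : ℕ) (Θ : (Fin (s + 2) → ℤ) → ℝ) : ∑ c ∈ BX s H, Θ c = ∑ c ∈ BX s H, Θ (-c) := by
  refine Finset.sum_nbij' (fun c => -c) (fun c => -c) ?_ ?_ ?_ ?_ ?_
  · intro c hc
    unfold BX at hc ⊢
    rw [Fintype.mem_piFinset] at hc ⊢
    intro l
    have := hc l
    rw [Finset.mem_Icc] at this ⊢
    simp only [Pi.neg_apply]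
    omega
  · intro c hc
    unfold BX at hc ⊢
    rw [Fintype.mem_piFinset] at hc ⊢
    intro l
    have := hc l
    rw [Finset.mem_Icc] at this ⊢
    simp only [Pi.neg_apply]
    omega
  · intro c _; simp
  · intro c _; simp
  · intro c _; simp

lemma pv_neg (s : ℕ) (g : ℕ → ℤ) (c : Fin (s + 2) → ℤ) (n : ℕ) :
    pv s g (-c) n = -(pv s (fun k => - g k) c n) := by
  unfold pv
  simp only [Pi.neg_apply, neg_mul, Finset.sum_neg_distrib]
  ring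

/-- the final numerical step -/
lemma numer (s U V H K M K1 I : ℕ) (L Lx : ℝ) (hV : V = U + 4) (hL : 100 ≤ L) (hLs : ((s : ℝ) + 3) ^ 2 ≤ L)
    (hLx1 : L ≤ Lx) (hLx2 : Lx ≤ (s + 3) * L) (hK1 : (K1 : ℝ) ≤ K / L ^ V) (hM : (M : ℝ) ≤ H / L ^ V)
    (hHV : 1 ≤ (H : ℝ) / L ^ V) (hI : ((2 ^ I * M : ℕ) : ℝ) ≤ 2 * H) :
    2 * ((2 * (H : ℝ) + 1) ^ (s + 2) * (K1 * Lx) ^ 2) +
      2 * ((1 + 2 * M) * ((2 * (H : ℝ) + 1) ^ (s + 1) * (K * Lx) ^ 2) +
        2 * ((2 * (H : ℝ) + 1) ^ (s + 1) * (2 ^ I * M) * (K : ℝ) ^ 2 / Lx ^ (U + 1))) ≤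
    (2 * (H : ℝ) + 1) ^ (s + 2) * (K ^ 2 / L ^ U) / 4 := by
  have hLp : 0 < L := by linarith
  have hLxp : 0 < Lx := by linarith
  have hL1 : 1 ≤ L := by linarith
  have hH0 : (0 : ℝ) ≤ H := Nat.cast_nonneg H
  have hK0 : (0 : ℝ) ≤ K := Nat.cast_nonneg K
  have hM0 : (0 : ℝ) ≤ M := Nat.cast_nonneg M
  have hLx3 : Lx ^ 2 ≤ L ^ 3 := by
    calc Lx ^ 2 ≤ ((s + 3) * L) ^ 2 := pow_le_pow_left₀ hLxp.le hLx2 2
      _ = (s + 3) ^ 2 * L ^ 2 := by ring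
      _ ≤ L * L ^ 2 := mul_le_mul_of_nonneg_right hLs (by positivity)
      _ = L ^ 3 := by ring
  set P : ℝ := (2 * (H : ℝ) + 1) with hP
  have hP0 : 0 < P := by positivity
  have hPs : P ^ (s + 2) = P * P ^ (s + 1) := by ring
  set X : ℝ := P ^ (s + 2) * (K ^ 2 / L ^ (U + 1)) with hX
  have hX0 : 0 ≤ X := by positivity
  have hLV : L ^ V = L ^ (U + 1) * L ^ 3 := by rw [hV, ← pow_add]
  have e1 : P ^ (s + 2) * (K1 * Lx) ^ 2 ≤ X := by
    have h1 : (K1 * Lx) ^ 2 ≤ K ^ 2 / L ^ (U + 1) := by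
      calc (K1 * Lx) ^ 2 = (K1 : ℝ) ^ 2 * Lx ^ 2 := by ring
        _ ≤ (K / L ^ V) ^ 2 * L ^ 3 := by gcongr
        _ = K ^ 2 / L ^ (U + 1) / (L ^ V) := by rw [hLV]; field_simp
        _ ≤ K ^ 2 / L ^ (U + 1) := div_le_self (by positivity) (one_le_pow₀ hL1)
    exact mul_le_mul_of_nonneg_left h1 (by positivity)
  have e2 : (1 + 2 * M) * (P ^ (s + 1) * (K * Lx) ^ 2) ≤ 2 * X := by
    have h1 : 1 + 2 * (M : ℝ) ≤ 2 * P / L ^ V := by
      have h2 : 1 + 2 * (M : ℝ) ≤ 3 * (H / L ^ V) := by linarith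
      refine h2.trans ?_
      rw [← mul_div_assoc]
      apply div_le_div_of_nonneg_right _ (by positivity)
      linarith
    calc (1 + 2 * M) * (P ^ (s + 1) * (K * Lx) ^ 2) = (1 + 2 * M) * (P ^ (s + 1) * (K ^ 2 * Lx ^ 2)) := by ring
      _ ≤ (2 * P / L ^ V) * (P ^ (s + 1) * (K ^ 2 * L ^ 3)) := by gcongr
      _ = 2 * X := by rw [hX, hPs, hLV]; field_simp
  have e3 : P ^ (s + 1) * (2 ^ I * M) * (K : ℝ) ^ 2 / Lx ^ (U + 1) ≤ X := by
    have h1 : (2 : ℝ) ^ I * M ≤ P := by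
      have : ((2 ^ I * M : ℕ) : ℝ) = (2 : ℝ) ^ I * M := by push_cast; ring
      rw [← this]; linarith
    calc P ^ (s + 1) * (2 ^ I * M) * (K : ℝ) ^ 2 / Lx ^ (U + 1) ≤ P ^ (s + 1) * P * (K : ℝ) ^ 2 / L ^ (U + 1) := by
          gcongr
      _ = X := by rw [hX, hPs]; ring
  have e4 : X = P ^ (s + 2) * (K ^ 2 / L ^ U) / L := by
    rw [hX, pow_succ L U]; field_simp
  have e5 : 10 * X ≤ P ^ (s + 2) * (K ^ 2 / L ^ U) / 4 := by
    rw [e4, ← mul_div_assoc, div_le_div_iff₀ hLp (by norm_num)]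
    have : 0 ≤ P ^ (s + 2) * (K ^ 2 / L ^ U) := by positivity
    nlinarith
  linarith

theorem ob (hE : S_ENG) : S_OB := by
  intro s U
  set V : ℕ := U + 4 with hV
  obtain ⟨E1, U1, hE1⟩ := hE (s + 1) (by omega) (V + 1) (V + 1) (V + 1) (U + 1)
  refine ⟨E1, U1, fun C => ?_⟩
  obtain ⟨B', x0, hB'⟩ := hE1 C
  have ev : ∀ᶠ y : ℝ in atTop, (100 : ℝ) + 8 * (s + 3) ^ 2 ≤ Real.log y :=
    Real.tendsto_log_atTop.eventually_ge_atTop _
  have ev3 := (tendsto_natCast_atTop_atTop (R := ℝ)).eventually (ev.and (eventually_ge_atTop 1))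
  obtain ⟨H1, hH1⟩ := eventually_atTop.1 ev3
  refine ⟨2 * B' + V + 1, max H1 x0, fun H hH K hK1 hK2 f hf0 hwin hfb g w hg hw => ?_⟩
  obtain ⟨hL0, hH1r⟩ := hH1 H ((le_max_left _ _).trans hH)
  set L : ℝ := Real.log H with hL
  set x : ℕ := XX s H K with hx
  have hs0 : (0 : ℝ) ≤ s := Nat.cast_nonneg s
  have hL100 : 100 ≤ L := by nlinarith
  have hLs : ((s : ℝ) + 3) ^ 2 ≤ L := by nlinarith
  have hL8 : 8 * ((s : ℝ) + 3) ≤ L := by nlinarith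
  have hLp : 0 < L := by linarith
  have hL1 : 1 ≤ L := by linarith
  have hHn : 1 ≤ H := by exact_mod_cast hH1r
  have hLB : ∀ m : ℕ, 1 ≤ L ^ m := fun m => one_le_pow₀ hL1
  have hKr : (1 : ℝ) ≤ K := (hLB _).trans hK1
  have hKn : 1 ≤ K := by exact_mod_cast hKr
  have hKH : (K : ℝ) ≤ H := by
    calc (K : ℝ) = K * 1 := (mul_one _).symm
      _ ≤ K * L ^ (2 * B' + V + 1) := mul_le_mul_of_nonneg_left (hLB _) (by linarith)
      _ ≤ H := hK2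
  -- the size of x
  have hxn : x = 4 * (s + 3) * H * K ^ (s + 1) := rfl
  have hxr : (x : ℝ) = 4 * (s + 3) * H * K ^ (s + 1) := by rw [hxn]; push_cast; ring
  have hKs : (1 : ℝ) ≤ (K : ℝ) ^ (s + 1) := one_le_pow₀ hKr
  have hHx : (H : ℝ) * 12 ≤ x := by
    rw [hxr]
    calc (H : ℝ) * 12 = 4 * (0 + 3) * H * 1 := by ring
      _ ≤ 4 * (s + 3) * H * K ^ (s + 1) := by gcongr
  have hHxn : 12 * H ≤ x := by
    have : ((12 * H : ℕ) : ℝ) ≤ x := by push_cast; linarith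
    exact_mod_cast this
  set Lx : ℝ := Real.log x with hLx
  have hLx1 : L ≤ Lx := Real.log_le_log (by linarith) (by linarith)
  have hLxp : 0 < Lx := by linarith
  have hLx2 : Lx ≤ (s + 3) * L := by
    rw [hLx, hxr, Real.log_mul (by positivity) (by positivity), Real.log_mul (by positivity) (by positivity),
      Real.log_pow, ← hL]
    have h1 : Real.log (4 * ((s : ℝ) + 3)) ≤ L := by
      have := Real.log_le_sub_one_of_pos (show (0 : ℝ) < 4 * ((s : ℝ) + 3) by positivity)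
      linarith
    have h2 : Real.log K ≤ L := Real.log_le_log (by linarith) hKH
    push_cast
    nlinarith
  have hLxB : ∀ m : ℕ, Lx ^ m ≤ L ^ (2 * m) := by
    intro m
    have h1 : Lx ≤ L ^ 2 := by
      have : (s : ℝ) + 3 ≤ L := by nlinarith
      nlinarith
    calc Lx ^ m ≤ (L ^ 2) ^ m := pow_le_pow_left₀ hLxp.le h1 m
      _ = _ := by rw [← pow_mul]
  have hLB2 : ∀ m : ℕ, m ≤ 2 * B' + V + 1 → L ^ m ≤ L ^ (2 * B' + V + 1) := fun m hm =>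
    pow_le_pow_right₀ hL1 hm
  -- K1 and M
  set K1 : ℕ := ⌊(K : ℝ) / L ^ V⌋₊ with hK1d
  set M : ℕ := ⌊(H : ℝ) / L ^ V⌋₊ with hMd
  have hK1a : (K1 : ℝ) ≤ K / L ^ V := Nat.floor_le (by positivity)
  have hMa : (M : ℝ) ≤ H / L ^ V := Nat.floor_le (by positivity)
  have hKV : 1 ≤ (K : ℝ) / L ^ V := by
    rw [le_div_iff₀ (by positivity), one_mul]
    exact (hLB2 V (by omega)).trans hK1
  have hHV : 1 ≤ (H : ℝ) / L ^ V := hKV.trans (by gcongr)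
  have half : ∀ y : ℝ, 1 ≤ y → y ≤ 2 * (⌊y⌋₊ : ℝ) := by
    intro y hy
    have h1 := Nat.lt_floor_add_one y
    have h2 : (1 : ℝ) ≤ ⌊y⌋₊ := by exact_mod_cast Nat.le_floor (by simpa using hy)
    linarith
  have hK1b := half _ hKV
  have hMb := half _ hHV
  rw [← hK1d] at hK1b
  rw [← hMd] at hMb
  have hM1 : 1 ≤ M := Nat.le_floor (by simpa using hHV)
  have hK1K : K1 ≤ K := by
    have : (K1 : ℝ) ≤ K := hK1a.trans (div_le_self (by linarith) (hLB V))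
    exact_mod_cast this
  have hMH : M ≤ H := by
    have : (M : ℝ) ≤ H := hMa.trans (div_le_self (by linarith) (hLB V))
    exact_mod_cast this
  have hKle : (K : ℝ) ≤ 2 * K1 * L ^ V := by
    rw [div_le_iff₀ (by positivity)] at hK1b; exact hK1b
  have hHle : (H : ℝ) ≤ 2 * M * L ^ V := by
    rw [div_le_iff₀ (by positivity)] at hMb; exact hMb
  have hLxV : L ^ V * L ≤ Lx ^ (V + 1) := by
    rw [← pow_succ]; exact pow_le_pow_left₀ hLp.le hLx1 _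
  -- I
  have hex : ∃ I : ℕ, H ≤ 2 ^ I * M := ⟨H, by
    have h1 : H < 2 ^ H := Nat.lt_two_pow_self
    nlinarith⟩
  classical
  set I := Nat.find hex with hId
  have hI1 : H ≤ 2 ^ I * M := Nat.find_spec hex
  have hI2 : ∀ i < I, 2 ^ i * M < H := fun i hi => not_le.1 (Nat.find_min hex hi)
  have hI3 : 2 ^ I * M ≤ 2 * H := by
    rcases Nat.eq_zero_or_pos I with h | h
    · rw [h]; omega
    · have h1 := hI2 (I - 1) (by omega)
      have h2 : 2 ^ I = 2 * 2 ^ (I - 1) := by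
        rw [← pow_succ']; congr 1; omega
      rw [h2]; nlinarith
  -- the bound for each sign
  have hfx : ∀ n ≤ x, ‖f n‖ ≤ Lx := hfb
  have hFb : ∀ v, ‖fz (cut x f) v‖ ≤ Lx := fz_bd f x Lx hLxp.le hfx
  have key : ∀ g' : ℕ → ℤ, (∀ n ∈ Finset.Icc 1 K, |g' n| ≤ H * K ^ (s + 1)) →
      ∑ c ∈ BX s H, ‖∑ n ∈ Finset.Icc 1 K, w n * fz (cut x f) (pv s g' c n)‖ ^ 2 ≤
        (2 * (H : ℝ) + 1) ^ (s + 2) * (K ^ 2 / L ^ U) / 4 := by
    intro g' hg'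
    refine (ob_one s U H K M I K1 Lx (fz (cut x f)) g' w hK1K hLxp hFb hw hI1 ?_).trans
      (numer s U V H K M K1 I L Lx hV hL100 hLs hLx1 hLx2 hK1a hMa hHV (by exact_mod_cast hI3))
    intro i hi σ hσ
    have hDH : 2 ^ i * M < H := hI2 i hi
    have hDM : M ≤ 2 ^ i * M := Nat.le_mul_of_pos_left _ (by positivity)
    have hDMr : (M : ℝ) ≤ ((2 ^ i * M : ℕ) : ℝ) := by exact_mod_cast hDM
    have hDHr : ((2 ^ i * M : ℕ) : ℝ) ≤ H := by exact_mod_cast hDH.le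
    have h15 : ((s + 4 : ℕ) : ℤ) * ((H : ℤ) * K ^ (s + 1)) ≤ 15 * (x : ℤ) := by
      rw [hxn]
      push_cast
      have h1 : (0 : ℤ) ≤ (H : ℤ) * (K : ℤ) ^ (s + 1) := by positivity
      nlinarith
    have hbig : (H : ℝ) * L ≤ 2 * (((2 ^ i * M : ℕ) : ℝ) * Lx ^ (V + 1)) := by
      calc (H : ℝ) * L ≤ 2 * M * L ^ V * L := by gcongr
        _ = 2 * (M * (L ^ V * L)) := by ring
        _ ≤ 2 * (((2 ^ i * M : ℕ) : ℝ) * Lx ^ (V + 1)) := by gcongr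
    have hbig0 : (0 : ℝ) ≤ ((2 ^ i * M : ℕ) : ℝ) * Lx ^ (V + 1) := by positivity
    refine hB' x ((le_max_right _ _).trans (hH.trans (by omega))) f hwin hfb (2 ^ i * M) K K1 (2 * H + 1) 0
      (fun k => g' k - ((H : ℤ) + 1)) (fun _ => H) σ w hw hσ ?_ ?_ ?_ hK1K ?_ ?_ ?_ ?_ ?_ ?_ ?_ ?_
    · -- 2 D K^j ≤ x
      rw [hxn]
      have h1 : 2 * (2 ^ i * M) ≤ 4 * (s + 3) * H := by nlinarith
      exact Nat.mul_le_mul_right _ h1
    · -- x ≤ D K^j Lx^E0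
      have h1 : 4 * ((s : ℝ) + 3) * H ≤ ((2 ^ i * M : ℕ) : ℝ) * Lx ^ (V + 1) := by
        have h2 : 8 * ((s : ℝ) + 3) * H ≤ L * H := mul_le_mul_of_nonneg_right hL8 (by linarith)
        linarith
      calc (x : ℝ) = 4 * ((s : ℝ) + 3) * H * K ^ (s + 1) := hxr
        _ ≤ ((2 ^ i * M : ℕ) : ℝ) * Lx ^ (V + 1) * K ^ (s + 1) := by
            gcongr
        _ = _ := by ring
    · exact (hLxB B').trans ((hLB2 _ (by omega)).trans hK1)
    · -- K ≤ K1 Lx^E2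
      calc (K : ℝ) ≤ 2 * K1 * L ^ V := hKle
        _ ≤ K1 * (L ^ V * L) := by
            have : (0 : ℝ) ≤ K1 * L ^ V := by positivity
            nlinarith
        _ ≤ K1 * Lx ^ (V + 1) := by gcongr
    · -- K Lx^B ≤ A
      have h1 : (K : ℝ) * Lx ^ B' ≤ K * L ^ (2 * B' + V + 1) :=
        mul_le_mul_of_nonneg_left ((hLxB B').trans (hLB2 _ (by omega))) (by linarith)
      push_cast
      linarith
    · intro _; exact le_rfl
    · -- A ≤ D Lx^E6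
      push_cast at hbig hbig0 ⊢
      nlinarith
    · -- D ≤ A Lx^E6
      have h1 : 1 ≤ Lx ^ (V + 1) := one_le_pow₀ (by linarith)
      have h2 : (((2 * H + 1 : ℕ) : ℕ) : ℝ) * 1 ≤ ((2 * H + 1 : ℕ) : ℝ) * Lx ^ (V + 1) :=
        mul_le_mul_of_nonneg_left h1 (by positivity)
      have h3 : (((2 * H + 1 : ℕ) : ℕ) : ℝ) = 2 * H + 1 := by push_cast; ring
      linarith
    · omega
    · intro _; omega
    · intro r hr a ha d hd k hk
      rw [Finset.mem_Ioc] at hd hk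
      refine (val_le s H K g' r hr a d σ hσ ha (by omega) k (by omega) hk.2
        (hg' k (Finset.mem_Icc.2 ⟨by omega, hk.2⟩))).trans h15
  -- both signs
  have hval : ∀ c ∈ BX s H, ∀ n ∈ Finset.Icc 1 K, |pv s g c n| ≤ (x : ℤ) := by
    intro c hc n hn
    refine (pv_le s H K g c hc n hn (hg n hn)).trans ?_
    rw [hxn]
    push_cast
    have h1 : (0 : ℤ) ≤ (H : ℤ) * (K : ℤ) ^ (s + 1) := by positivity
    nlinarith
  have hpos := key g hg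
  have hneg := key (fun k => - g k) (fun n hn => by rw [abs_neg]; exact hg n hn)
  have hneg2 : ∑ c ∈ BX s H, ‖∑ n ∈ Finset.Icc 1 K, w n * fz (cut x f) (-(pv s g c n))‖ ^ 2 ≤
      (2 * (H : ℝ) + 1) ^ (s + 2) * (K ^ 2 / L ^ U) / 4 := by
    rw [sum_neg]
    refine le_trans (le_of_eq ?_) hneg
    refine Finset.sum_congr rfl fun c _ => ?_
    congr 2
    refine Finset.sum_congr rfl fun n _ => ?_
    rw [pv_neg, neg_neg]
  calc ∑ c ∈ BX s H, ‖∑ n ∈ Finset.Icc 1 K, w n * f (pv s g c n).natAbs‖ ^ 2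
      ≤ ∑ c ∈ BX s H, (2 * ‖∑ n ∈ Finset.Icc 1 K, w n * fz (cut x f) (pv s g c n)‖ ^ 2 +
          2 * ‖∑ n ∈ Finset.Icc 1 K, w n * fz (cut x f) (-(pv s g c n))‖ ^ 2) := by
        refine Finset.sum_le_sum fun c hc => ?_
        refine le_trans (le_of_eq ?_) (two_sq _ _)
        rw [← Finset.sum_add_distrib]
        congr 2
        refine Finset.sum_congr rfl fun n hn => ?_
        rw [fz_add f x hf0 _ (hval c hc n hn)]
        ring
    _ = 2 * ∑ c ∈ BX s H, ‖∑ n ∈ Finset.Icc 1 K, w n * fz (cut x f) (pv s g c n)‖ ^ 2 +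
          2 * ∑ c ∈ BX s H, ‖∑ n ∈ Finset.Icc 1 K, w n * fz (cut x f) (-(pv s g c n))‖ ^ 2 := by
        rw [Finset.sum_add_distrib, Finset.mul_sum, Finset.mul_sum]
    _ ≤ _ := by linarith

end Pool.Agent.Q297.CR
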