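import Pool.Agent.Q236.CR.Stm
import Pool.Agent.H370R2.MV

/-!
# Project CR, job MVG, part 1: mean values of multilinear Dirichlet polynomials (helper297)
-/

set_option autoImplicit false

namespace Pool.Agent.Q297.CR

open Finset Filter MeasureTheory
open Pool.Agent.Q236.CR

lemma nt_mul (t : ℝ) (m n : ℕ) : nt t (m * n) = nt t m * nt t n := by
  unfold nt
  rw [Nat.cast_mul, Complex.natCast_mul_natCast_cpow]

lemma nt_one (t : ℝ) : nt t 1 = 1 := by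
  unfold nt
  simp

lemma nt_prod (t : ℝ) {ι : Type*} (s : Finset ι) (f : ι → ℕ) :
    nt t (∏ i ∈ s, f i) = ∏ i ∈ s, nt t (f i) := by
  classical
  induction s using Finset.induction_on with
  | empty => simp [nt_one]
  | insert a s ha ih => rw [Finset.prod_insert ha, Finset.prod_insert ha, nt_mul, ih]

lemma nt_cont (n : ℕ) (hn : n ≠ 0) : Continuous fun t : ℝ => nt t n := by
  unfold nt
  apply Continuous.const_cpow
  · fun_prop
  · left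
    exact_mod_cast hn

/-- a multilinear Dirichlet polynomial -/
noncomputable def MP {r : ℕ} (G : Fin r → ℕ → ℂ) (Q : Finset (Fin r → ℕ)) (τ : ℝ) : ℂ :=
  ∑ w ∈ Q, (∏ i, G i (w i)) * nt τ (∏ i, w i)

lemma MP_cont {r : ℕ} (G : Fin r → ℕ → ℂ) (Q : Finset (Fin r → ℕ)) (h : ∀ w ∈ Q, ∏ i, w i ≠ 0) :
    Continuous (MP G Q) := by
  unfold MP
  refine continuous_finset_sum _ fun w hw => ?_
  exact continuous_const.mul (nt_cont _ (h w hw))

lemma MP_box {r : ℕ} (G : Fin r → ℕ → ℂ) (S : Fin r → Finset ℕ) (τ : ℝ) :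
    MP G (Fintype.piFinset S) τ = ∏ i, ∑ n ∈ S i, G i n * nt τ n := by
  unfold MP
  rw [Finset.prod_univ_sum]
  refine Finset.sum_congr rfl fun w _ => ?_
  rw [nt_prod, Finset.prod_mul_distrib]

/-- mean values of multilinear Dirichlet polynomials -/
lemma mvB {r : ℕ} (G : Fin r → ℕ → ℂ) (B : ℝ) (hB : 0 ≤ B) (Y Z : ℕ) (Q : Finset (Fin r → ℕ))
    (hQ : Q ⊆ Fintype.piFinset (fun _ : Fin r => Finset.Icc 1 Y)) (R : Finset ℕ)
    (hR : ∀ w ∈ Q, ∏ i, w i ∈ R) (hRZ : R ⊆ Finset.Icc 1 Z) (hG : ∀ w ∈ Q, ∀ i, ‖G i (w i)‖ ≤ B)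
    (T1 T2 : ℝ) (h : T1 ≤ T2) :
    ∫ τ in T1..T2, ‖MP G Q τ‖ ^ 2 ≤
      (T2 - T1 + 8 * Z * (1 + Real.log Z)) * (B ^ (2 * r) * ∑ n ∈ R, (tr r Y n : ℝ) ^ 2) := by
  classical
  set b : ℕ → ℂ := fun n => ∑ w ∈ Q with (∏ i, w i) = n, ∏ i, G i (w i) with hb
  have e1 : ∀ τ : ℝ, MP G Q τ = ∑ n ∈ Finset.Icc 1 Z, b n * (n : ℂ) ^ (-(τ : ℂ) * Complex.I) := by
    intro τ
    unfold MP
    rw [← Finset.sum_fiberwise_of_maps_to (g := fun w : Fin r → ℕ => ∏ i, w i)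
      (t := Finset.Icc 1 Z) (fun w hw => hRZ (hR w hw))]
    refine Finset.sum_congr rfl fun n _ => ?_
    rw [hb, Finset.sum_mul]
    refine Finset.sum_congr rfl fun w hw => ?_
    rw [(Finset.mem_filter.1 hw).2]
    rfl
  have hbn : ∀ n, ‖b n‖ ≤ B ^ r * (tr r Y n : ℝ) := by
    intro n
    calc ‖b n‖ ≤ ∑ w ∈ Q with (∏ i, w i) = n, ‖∏ i, G i (w i)‖ := norm_sum_le _ _
      _ ≤ ∑ w ∈ Q with (∏ i, w i) = n, B ^ r := by
          refine Finset.sum_le_sum fun w hw => ?_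
          rw [norm_prod]
          calc ∏ i, ‖G i (w i)‖ ≤ ∏ _i : Fin r, B :=
                Finset.prod_le_prod (fun i _ => norm_nonneg _) (fun i _ => hG w (Finset.mem_filter.1 hw).1 i)
            _ = B ^ r := by simp
      _ = ((Q.filter (fun w => ∏ i, w i = n)).card : ℝ) * B ^ r := by
          rw [Finset.sum_const, nsmul_eq_mul]
      _ ≤ (tr r Y n : ℝ) * B ^ r := by
          refine mul_le_mul_of_nonneg_right ?_ (pow_nonneg hB r)
          unfold tr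
          exact_mod_cast Finset.card_le_card (Finset.filter_subset_filter _ hQ)
      _ = _ := mul_comm _ _
  have hb0 : ∀ n ∈ Finset.Icc 1 Z, n ∉ R → ‖b n‖ ^ 2 = 0 := by
    intro n _ hn
    have : b n = 0 := by
      rw [hb]
      apply Finset.sum_eq_zero
      intro w hw
      exact absurd ((Finset.mem_filter.1 hw).2 ▸ hR w (Finset.mem_filter.1 hw).1) hn
    rw [this]; simp
  have e2 : ∑ n ∈ Finset.Icc 1 Z, ‖b n‖ ^ 2 ≤ B ^ (2 * r) * ∑ n ∈ R, (tr r Y n : ℝ) ^ 2 := by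
    rw [← Finset.sum_subset hRZ hb0, Finset.mul_sum]
    refine Finset.sum_le_sum fun n _ => ?_
    calc ‖b n‖ ^ 2 ≤ (B ^ r * (tr r Y n : ℝ)) ^ 2 := pow_le_pow_left₀ (norm_nonneg _) (hbn n) 2
      _ = B ^ (2 * r) * (tr r Y n : ℝ) ^ 2 := by rw [mul_pow]; ring
  have e3 := H370.mean_value b Z T1 T2 h
  have e4 : ∫ τ in T1..T2, ‖MP G Q τ‖ ^ 2 =
      ∫ τ in T1..T2, ‖∑ n ∈ Finset.Icc 1 Z, b n * (n : ℂ) ^ (-(τ : ℂ) * Complex.I)‖ ^ 2 := by
    refine intervalIntegral.integral_congr fun τ _ => ?_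
    simp only [e1 τ]
  rw [e4]
  refine e3.trans (mul_le_mul_of_nonneg_left e2 ?_)
  have : 0 ≤ Real.log Z := Real.log_natCast_nonneg Z
  have h5 : 0 ≤ (8 : ℝ) * Z * (1 + Real.log Z) := by positivity
  linarith

/-! ### cells -/

/-- the `l`-th cell -/
noncomputable def cell (η : ℝ) (l : ℕ) : Finset ℕ :=
  Finset.Ioc (⌈Real.exp (l * η)⌉₊ - 1) (⌈Real.exp ((l + 1 : ℕ) * η)⌉₊ - 1)

lemma ceil_pos' (x : ℝ) : 1 ≤ ⌈Real.exp x⌉₊ := Nat.one_le_iff_ne_zero.2 (by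
  have := Nat.ceil_pos.2 (Real.exp_pos x); omega)

lemma mem_cell (η : ℝ) (l n : ℕ) :
    n ∈ cell η l ↔ Real.exp (l * η) ≤ n ∧ (n : ℝ) < Real.exp ((l + 1 : ℕ) * η) := by
  unfold cell
  have h1 := ceil_pos' (l * η)
  have h2 := ceil_pos' ((l + 1 : ℕ) * η)
  rw [Finset.mem_Ioc, ← Nat.ceil_le, ← Nat.lt_ceil]
  omega

/-- the index of the cell of `n` -/
noncomputable def idx (η : ℝ) (n : ℕ) : ℕ := ⌊Real.log n / η⌋₊

lemma mem_cell_iff {η : ℝ} (hη : 0 < η) {l n : ℕ} (hn : 1 ≤ n) : n ∈ cell η l ↔ idx η n = l := by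
  have hn' : (0 : ℝ) < n := by exact_mod_cast hn
  have hl : 0 ≤ Real.log n / η := div_nonneg (Real.log_natCast_nonneg n) hη.le
  rw [mem_cell, idx, Nat.floor_eq_iff hl, le_div_iff₀ hη, div_lt_iff₀ hη,
    Real.le_log_iff_exp_le hn', Real.log_lt_iff_lt_exp hn']
  push_cast
  rfl

lemma cell_pos {η : ℝ} {l n : ℕ} (h : n ∈ cell η l) : 1 ≤ n := by
  unfold cell at h
  rw [Finset.mem_Ioc] at h
  omega

lemma cell_two {η : ℝ} (hη : η ≤ Real.log 2) (l : ℕ) :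
    ⌈Real.exp ((l + 1 : ℕ) * η)⌉₊ - 1 ≤ 2 * ⌈Real.exp (l * η)⌉₊ := by
  have h1 := ceil_pos' ((l + 1 : ℕ) * η)
  have h2 : ⌈Real.exp ((l + 1 : ℕ) * η)⌉₊ ≤ 2 * ⌈Real.exp (l * η)⌉₊ := by
    rw [Nat.ceil_le]
    push_cast
    have h3 : Real.exp ((l + 1 : ℝ) * η) = Real.exp (l * η) * Real.exp η := by
      rw [← Real.exp_add]; ring_nf
    rw [h3]
    have h4 : Real.exp η ≤ 2 := by
      calc Real.exp η ≤ Real.exp (Real.log 2) := Real.exp_le_exp.2 hη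
        _ = 2 := Real.exp_log (by norm_num)
    have h5 := Nat.le_ceil (Real.exp (l * η))
    have h6 := Real.exp_pos (l * η)
    nlinarith
  omega

lemma prod_ge {r : ℕ} {η : ℝ} (l w : Fin r → ℕ) (h : ∀ i, w i ∈ cell η (l i)) :
    Real.exp (η * ∑ i, (l i : ℝ)) ≤ ((∏ i, w i : ℕ) : ℝ) := by
  rw [Finset.mul_sum, Real.exp_sum]
  push_cast
  refine Finset.prod_le_prod (fun i _ => (Real.exp_pos _).le) fun i _ => ?_
  rw [mul_comm]
  exact ((mem_cell _ _ _).1 (h i)).1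

lemma prod_le {r : ℕ} {η : ℝ} (l w : Fin r → ℕ) (h : ∀ i, w i ∈ cell η (l i)) :
    ((∏ i, w i : ℕ) : ℝ) ≤ Real.exp (η * ∑ i, ((l i : ℝ) + 1)) := by
  rw [Finset.mul_sum, Real.exp_sum]
  push_cast
  refine Finset.prod_le_prod (fun i _ => Nat.cast_nonneg _) fun i _ => ?_
  have := ((mem_cell _ _ _).1 (h i)).2.le
  push_cast at this
  rw [mul_comm η]
  exact this

end Pool.Agent.Q297.CR
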