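import Pool.Agent.Q297.CR.MvgA

/-!
# Project CR, job MVG, part 2: the two estimates (helper297)
-/

set_option autoImplicit false

namespace Pool.Agent.Q297.CR

open Finset Filter MeasureTheory
open Pool.Agent.Q236.CR

lemma prod_split {r : ℕ} (D : Fin r → ℂ) (i0 : Fin r) :
    ∏ j, D j = D i0 * ∏ j, (if j = i0 then 1 else D j) := by
  classical
  have h : ∀ j, D j = (if j = i0 then D i0 else 1) * (if j = i0 then 1 else D j) := by
    intro j
    by_cases hj : j = i0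
    · subst hj; simp
    · simp [hj]
  calc ∏ j, D j = ∏ j, ((if j = i0 then D i0 else 1) * (if j = i0 then 1 else D j)) :=
        Finset.prod_congr rfl fun j _ => h j
    _ = _ := by rw [Finset.prod_mul_distrib, Finset.prod_ite_eq' Finset.univ i0]; simp

/-- logarithms are small -/
lemma log_bd {X : ℕ} {L : ℝ} (hL : L = Real.log X) (hL4 : 2592 ≤ L) (hX : 1 ≤ X) {y : ℝ} (hy0 : 0 ≤ y)
    (hy : y ≤ 18 * X) : 1 + Real.log y ≤ L ^ 2 := by
  have hXr : (0 : ℝ) < X := by exact_mod_cast hX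
  rcases hy0.eq_or_lt with h | h
  · rw [← h, Real.log_zero]; nlinarith
  · have h1 : Real.log y ≤ Real.log (18 * X) := Real.log_le_log h hy
    rw [Real.log_mul (by norm_num) hXr.ne', ← hL] at h1
    have h2 : Real.log 18 ≤ 17 := by
      have := Real.log_le_sub_one_of_pos (show (0 : ℝ) < 18 by norm_num); linarith
    nlinarith

lemma inner_bd {r : ℕ} (X K C : ℕ) (L η T0 T T1 T2 : ℝ) (F : Fin r → ℕ → ℂ) (l : Fin r → ℕ)
    (hL : L = Real.log X) (hL4 : 2592 ≤ L) (hX : 1 ≤ X) (hη : 0 < η) (hη2 : η ≤ Real.log 2)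
    (hF : ∀ i n, ‖F i n‖ ≤ Real.log (n + 3)) (hT : 0 ≤ T) (h12 : T1 ≤ T2) (h12' : T2 - T1 ≤ T)
    (hτ : ∀ τ ∈ Set.Icc T1 T2, T0 ≤ |τ| ∧ |τ| ≤ T)
    (hDV : ∀ X Y : ℕ, 1 ≤ Y → ∑ n ∈ Finset.Icc 1 Y, (tr r X n : ℝ) ^ 4 ≤ Y * (1 + Real.log Y) ^ C)
    (i0 : Fin r) (hgood : Good X T0 T K (F i0) ⌈Real.exp (l i0 * η)⌉₊)
    (hl : Real.exp (η * ∑ i, ((l i : ℝ) + 1)) ≤ 9 * X) :
    ∫ τ in T1..T2, ‖MP F (Fintype.piFinset fun i => cell η (l i)) τ‖ ^ 2 ≤
      (X : ℝ) ^ 2 / L ^ K * L ^ (3 + 4 * r + 2 * C) := by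
  classical
  have hXr : (1 : ℝ) ≤ X := by exact_mod_cast hX
  have hX0 : (0 : ℝ) < X := by linarith
  have hLp : 0 < L := by linarith
  set M : ℕ := ⌈Real.exp (l i0 * η)⌉₊ with hM
  have hM1 : 1 ≤ M := ceil_pos' _
  have hMr : (1 : ℝ) ≤ M := by exact_mod_cast hM1
  have hM2 : (M : ℝ) ≤ 2 * Real.exp (l i0 * η) := by
    have h1 := (Nat.ceil_lt_add_one (Real.exp_pos (l i0 * η)).le).le
    have h2 : 1 ≤ Real.exp (l i0 * η) := Real.one_le_exp (by positivity)
    rw [← hM] at h1; linarith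
  set x : ℝ := X / M with hx
  have hx0 : 0 < x := by positivity
  set D : ℝ → Fin r → ℂ := fun τ i => ∑ n ∈ cell η (l i), F i n * nt τ n with hD
  set G : Fin r → ℕ → ℂ := fun j => if j = i0 then (fun _ => 1) else F j with hG
  set S : Fin r → Finset ℕ := fun j => if j = i0 then {1} else cell η (l j) with hS
  set E : ℝ → ℂ := MP G (Fintype.piFinset S) with hE
  have e1 : ∀ τ, MP F (Fintype.piFinset fun i => cell η (l i)) τ = D τ i0 * E τ := by
    intro τ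
    rw [hE, MP_box, MP_box, prod_split (fun i => ∑ n ∈ cell η (l i), F i n * nt τ n) i0]
    congr 1
    refine Finset.prod_congr rfl fun j _ => ?_
    by_cases hj : j = i0
    · simp [hG, hS, hj, nt_one]
    · simp [hG, hS, hj]
  set c0 : ℝ := (X : ℝ) ^ 2 / L ^ K / ((T + x) * x) with hc0
  have hden : 0 < (T + x) * x := by positivity
  have hc0p : 0 ≤ c0 := by positivity
  have e2 : ∀ τ ∈ Set.Icc T1 T2, ‖D τ i0‖ ^ 2 ≤ c0 := by
    intro τ h
    have h1 := hgood (M - 1) (⌈Real.exp ((l i0 + 1 : ℕ) * η)⌉₊ - 1) (by omega) (cell_two hη2 _) τ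
      (hτ τ h).1 (hτ τ h).2
    rw [hc0, le_div_iff₀ hden, hL]
    exact h1
  have hle : ∀ j, ((l j : ℝ) + 1) ≤ ∑ i, ((l i : ℝ) + 1) := fun j =>
    Finset.single_le_sum (f := fun i => ((l i : ℝ) + 1)) (fun i _ => by positivity) (Finset.mem_univ j)
  -- the tuples
  have hw1 : ∀ w ∈ Fintype.piFinset S, ∀ j, 1 ≤ w j := by
    intro w hw j
    have := (Fintype.mem_piFinset.1 hw) j
    by_cases hj : j = i0
    · simp only [hS, hj, if_true, Finset.mem_singleton] at this; rw [hj, this]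
    · simp only [hS, hj, if_false] at this
      exact cell_pos this
  have hw2 : ∀ w ∈ Fintype.piFinset S, ∀ j, w j ≤ 9 * X := by
    intro w hw j
    have := (Fintype.mem_piFinset.1 hw) j
    by_cases hj : j = i0
    · simp only [hS, hj, if_true, Finset.mem_singleton] at this; rw [hj, this]; omega
    · simp only [hS, hj, if_false] at this
      have h1 := ((mem_cell _ _ _).1 this).2
      have h2 : Real.exp ((l j + 1 : ℕ) * η) ≤ 9 * X := by
        refine le_trans (Real.exp_le_exp.2 ?_) hl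
        push_cast
        nlinarith [hle j]
      have h3 : (w j : ℝ) ≤ 9 * X := by linarith
      exact_mod_cast h3
  have hw3 : ∀ w ∈ Fintype.piFinset S, ((∏ j, w j : ℕ) : ℝ) ≤ 18 * x := by
    intro w hw
    have h1 : ((∏ j, w j : ℕ) : ℝ) * Real.exp (l i0 * η) ≤ 9 * X := by
      refine le_trans ?_ hl
      rw [Finset.mul_sum, Real.exp_sum]
      have h2 : ((∏ j, w j : ℕ) : ℝ) * Real.exp (l i0 * η) =
          ∏ j, ((w j : ℝ) * (if j = i0 then Real.exp (l i0 * η) else 1)) := by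
        rw [Finset.prod_mul_distrib, Finset.prod_ite_eq' Finset.univ i0]
        simp
      rw [h2]
      refine Finset.prod_le_prod (fun j _ => ?_) fun j _ => ?_
      · split_ifs <;> positivity
      · have := (Fintype.mem_piFinset.1 hw) j
        by_cases hj : j = i0
        · simp only [hS, hj, if_true, Finset.mem_singleton] at this
          rw [hj, this]
          simp only [if_true, Nat.cast_one, one_mul]
          apply Real.exp_le_exp.2
          nlinarith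
        · simp only [hS, hj, if_false] at this
          simp only [hj, if_false, mul_one]
          have h3 := ((mem_cell _ _ _).1 this).2.le
          push_cast at h3
          rw [mul_comm η]
          exact h3
    have h4 := Real.exp_pos (l i0 * η)
    have h5 : (0 : ℝ) ≤ ((∏ j, w j : ℕ) : ℝ) := Nat.cast_nonneg _
    rw [hx, mul_div_assoc', le_div_iff₀ (by linarith)]
    nlinarith
  set Z : ℕ := ⌊18 * x⌋₊ with hZ
  have hZx : (Z : ℝ) ≤ 18 * x := Nat.floor_le (by positivity)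
  have hxX : x ≤ X := div_le_self hX0.le hMr
  have hZX : (Z : ℝ) ≤ 18 * X := by linarith
  have hMX : (M : ℝ) ≤ 18 * X := by
    have : Real.exp (l i0 * η) ≤ 9 * X := by
      refine le_trans (Real.exp_le_exp.2 ?_) hl
      nlinarith [hle i0]
    linarith
  have hZ1 : 1 ≤ Z := by
    rw [hZ, Nat.le_floor_iff (by positivity), hx, mul_div_assoc', le_div_iff₀ (by linarith)]
    simpa using hMX
  have hlogZ : 1 + Real.log Z ≤ L ^ 2 := log_bd hL hL4 hX (Nat.cast_nonneg _) hZX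
  have hlogZ0 : 0 ≤ Real.log Z := Real.log_natCast_nonneg Z
  set B : ℝ := Real.log (((9 * X : ℕ) : ℝ) + 3) with hB
  have hB0 : 0 ≤ B := Real.log_nonneg (by push_cast; linarith)
  have hB1 : 1 ≤ B := by
    rw [hB, Real.le_log_iff_exp_le (by positivity)]
    have := Real.exp_one_lt_d9
    push_cast
    linarith
  have hB2 : B ≤ L ^ 2 := by
    have : 1 + B ≤ L ^ 2 := log_bd hL hL4 hX (by positivity) (by push_cast; linarith)
    linarith
  have hGB : ∀ w ∈ Fintype.piFinset S, ∀ i, ‖G i (w i)‖ ≤ B := by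
    intro w hw i
    by_cases hi : i = i0
    · simp only [hG, hi, if_true]; simpa using hB1
    · simp only [hG, hi, if_false]
      refine (hF i _).trans ?_
      apply Real.log_le_log (by positivity)
      have : ((w i : ℕ) : ℝ) ≤ ((9 * X : ℕ) : ℝ) := by exact_mod_cast hw2 w hw i
      linarith
  have key := mvB G B hB0 (9 * X) Z (Fintype.piFinset S)
    (by
      intro w hw
      rw [Fintype.mem_piFinset]
      intro j
      rw [Finset.mem_Icc]
      exact ⟨hw1 w hw j, hw2 w hw j⟩)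
    (Finset.Icc 1 Z)
    (by
      intro w hw
      rw [Finset.mem_Icc]
      refine ⟨Nat.one_le_iff_ne_zero.2 (Finset.prod_ne_zero_iff.2 fun j _ => ?_), ?_⟩
      · have := hw1 w hw j; omega
      · rw [hZ, Nat.le_floor_iff (by positivity)]
        exact hw3 w hw)
    subset_rfl hGB T1 T2 h12
  have e5 : ∑ n ∈ Finset.Icc 1 Z, (tr r (9 * X) n : ℝ) ^ 2 ≤ 18 * x * L ^ (2 * C) := by
    calc ∑ n ∈ Finset.Icc 1 Z, (tr r (9 * X) n : ℝ) ^ 2 ≤ ∑ n ∈ Finset.Icc 1 Z, (tr r (9 * X) n : ℝ) ^ 4 := by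
          refine Finset.sum_le_sum fun n _ => ?_
          rcases Nat.eq_zero_or_pos (tr r (9 * X) n) with h | h
          · rw [h]; simp
          · have h1 : (1 : ℝ) ≤ (tr r (9 * X) n : ℝ) := by exact_mod_cast h
            exact pow_le_pow_right₀ h1 (by norm_num)
      _ ≤ Z * (1 + Real.log Z) ^ C := hDV _ _ hZ1
      _ ≤ 18 * x * (L ^ 2) ^ C := by gcongr
      _ = _ := by rw [← pow_mul]
  have e6 : T2 - T1 + 8 * Z * (1 + Real.log Z) ≤ 144 * L ^ 2 * (T + x) := by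
    have h1 : 8 * (Z : ℝ) * (1 + Real.log Z) ≤ 8 * (18 * x) * L ^ 2 := by gcongr
    have h2 : T ≤ 144 * L ^ 2 * T := by
      have : 1 ≤ 144 * L ^ 2 := by nlinarith
      nlinarith
    nlinarith
  have e7 : B ^ (2 * r) ≤ L ^ (4 * r) := by
    calc B ^ (2 * r) ≤ (L ^ 2) ^ (2 * r) := pow_le_pow_left₀ hB0 hB2 _
      _ = L ^ (4 * r) := by rw [← pow_mul]; congr 1; ring
  have hsum0 : 0 ≤ ∑ n ∈ Finset.Icc 1 Z, (tr r (9 * X) n : ℝ) ^ 2 := Finset.sum_nonneg fun _ _ => by positivity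
  have hEc : Continuous E := MP_cont G _ fun w hw => Finset.prod_ne_zero_iff.2 fun j _ => by
    have := hw1 w hw j; omega
  have e8 : ∫ τ in T1..T2, ‖MP F (Fintype.piFinset fun i => cell η (l i)) τ‖ ^ 2 ≤
      c0 * ∫ τ in T1..T2, ‖E τ‖ ^ 2 := by
    rw [← intervalIntegral.integral_const_mul]
    refine intervalIntegral.integral_mono_on h12 ?_ ?_ ?_
    · refine Continuous.intervalIntegrable ?_ _ _
      refine (MP_cont F _ fun w hw => Finset.prod_ne_zero_iff.2 fun j _ => ?_).norm.pow 2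
      have := cell_pos ((Fintype.mem_piFinset.1 hw) j); omega
    · exact (continuous_const.mul (hEc.norm.pow 2)).intervalIntegrable _ _
    · intro τ h
      rw [e1, norm_mul, mul_pow]
      exact mul_le_mul_of_nonneg_right (e2 τ h) (by positivity)
  calc ∫ τ in T1..T2, ‖MP F (Fintype.piFinset fun i => cell η (l i)) τ‖ ^ 2
      ≤ c0 * ∫ τ in T1..T2, ‖E τ‖ ^ 2 := e8
    _ ≤ c0 * ((144 * L ^ 2 * (T + x)) * (L ^ (4 * r) * (18 * x * L ^ (2 * C)))) := by
        refine mul_le_mul_of_nonneg_left (key.trans ?_) hc0p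
        have hp : 0 ≤ T2 - T1 + 8 * (Z : ℝ) * (1 + Real.log Z) := by
          have : (0 : ℝ) ≤ 8 * (Z : ℝ) * (1 + Real.log Z) := by positivity
          linarith
        exact mul_le_mul e6 (mul_le_mul e7 e5 hsum0 (by positivity)) (by positivity) (by positivity)
    _ = (X : ℝ) ^ 2 / L ^ K * (2592 * L ^ (2 + 4 * r + 2 * C)) := by
        rw [hc0]
        field_simp
        ring
    _ ≤ (X : ℝ) ^ 2 / L ^ K * L ^ (3 + 4 * r + 2 * C) := by
        refine mul_le_mul_of_nonneg_left ?_ (by positivity)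
        have : L ^ (3 + 4 * r + 2 * C) = L * L ^ (2 + 4 * r + 2 * C) := by ring
        rw [this]
        exact mul_le_mul_of_nonneg_right hL4 (by positivity)

/-- the outer part -/
lemma outer_bd {r : ℕ} (X D C : ℕ) (L η T T1 T2 : ℝ) (F : Fin r → ℕ → ℂ)
    (hL : L = Real.log X) (hL4 : 2592 ≤ L) (hLr : 27 * r + 1 ≤ L) (hX : 1 ≤ X) (hηD : η = 1 / L ^ (2 * D))
    (hηX : 1 ≤ η * X) (hrη : r * η ≤ 1)
    (hF : ∀ i n, ‖F i n‖ ≤ Real.log (n + 3)) (hTX : T ≤ X) (h12 : T1 ≤ T2) (h12' : T2 - T1 ≤ T)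
    (hDV : ∀ X Y : ℕ, 1 ≤ Y → ∑ n ∈ Finset.Icc 1 Y, (tr r X n : ℝ) ^ 4 ≤ Y * (1 + Real.log Y) ^ C)
    (x1 x2 : ℕ) (hx12 : x1 ≤ x2) (hx2 : x2 ≤ 9 * X) (Q : Finset (Fin r → ℕ))
    (hQ : Q ⊆ Fintype.piFinset (fun _ : Fin r => Finset.Icc 1 x2))
    (hQ2 : ∀ w ∈ Q, (x1 < ∏ i, w i ∧ ((∏ i, w i : ℕ) : ℝ) ≤ Real.exp (r * η) * x1) ∨
      (Real.exp (-(r * η)) * x2 ≤ ((∏ i, w i : ℕ) : ℝ) ∧ ∏ i, w i ≤ x2)) (hQ3 : ∀ w ∈ Q, ∏ i, w i ≤ x2) :
    ∫ τ in T1..T2, ‖MP F Q τ‖ ^ 2 ≤ (X : ℝ) ^ 2 * (L ^ (4 + 4 * r + C) / L ^ D) := by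
  classical
  have hXr : (1 : ℝ) ≤ X := by exact_mod_cast hX
  have hLp : 0 < L := by linarith
  have hη : 0 < η := by rw [hηD]; positivity
  set R : Finset ℕ := (Finset.Icc 1 (9 * X)).filter (fun n => (x1 < n ∧ (n : ℝ) ≤ Real.exp (r * η) * x1) ∨
    (Real.exp (-(r * η)) * x2 ≤ (n : ℝ) ∧ n ≤ x2)) with hR
  set B : ℝ := Real.log (((9 * X : ℕ) : ℝ) + 3) with hB
  have hB0 : 0 ≤ B := Real.log_nonneg (by push_cast; linarith)
  have hB2 : B ≤ L ^ 2 := by
    have : 1 + B ≤ L ^ 2 := log_bd hL hL4 hX (by positivity) (by push_cast; linarith)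
    linarith
  have hQ' : Q ⊆ Fintype.piFinset (fun _ : Fin r => Finset.Icc 1 (9 * X)) := by
    intro w hw
    have h1 := Fintype.mem_piFinset.1 (hQ hw)
    refine Fintype.mem_piFinset.2 fun i => ?_
    have h2 := Finset.mem_Icc.1 (h1 i)
    exact Finset.mem_Icc.2 ⟨h2.1, h2.2.trans hx2⟩
  have hGB : ∀ w ∈ Q, ∀ i, ‖F i (w i)‖ ≤ B := by
    intro w hw i
    refine (hF i _).trans ?_
    apply Real.log_le_log (by positivity)
    have h2 := Finset.mem_Icc.1 (Fintype.mem_piFinset.1 (hQ' hw) i)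
    have : ((w i : ℕ) : ℝ) ≤ ((9 * X : ℕ) : ℝ) := by exact_mod_cast h2.2
    linarith
  have hne : ∀ w ∈ Q, 1 ≤ ∏ i, w i := fun w hw =>
    Nat.one_le_iff_ne_zero.2 (Finset.prod_ne_zero_iff.2 fun j _ => by
      have h2 := Finset.mem_Icc.1 (Fintype.mem_piFinset.1 (hQ' hw) j); omega)
  have hQR : ∀ w ∈ Q, ∏ i, w i ∈ R := by
    intro w hw
    rw [hR, Finset.mem_filter, Finset.mem_Icc]
    exact ⟨⟨hne w hw, (hQ3 w hw).trans hx2⟩, hQ2 w hw⟩
  have key := mvB F B hB0 (9 * X) (9 * X) Q hQ' R hQR (Finset.filter_subset _ _) hGB T1 T2 h12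
  -- the cardinality of R
  have hx1X : (x1 : ℝ) ≤ 9 * X := by exact_mod_cast hx12.trans hx2
  have hx2X : (x2 : ℝ) ≤ 9 * X := by exact_mod_cast hx2
  have hexp1 : Real.exp (r * η) ≤ 1 + 2 * (r * η) := by
    have h0 : 0 ≤ r * η := by positivity
    have := Real.abs_exp_sub_one_le (x := r * η) (by rw [abs_of_nonneg h0]; exact hrη)
    rw [abs_of_nonneg (by linarith [Real.one_le_exp h0]), abs_of_nonneg h0] at this
    linarith
  have hexp2 : 1 - r * η ≤ Real.exp (-(r * η)) := by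
    have := Real.add_one_le_exp (-(r * η)); linarith
  have hcard : (R.card : ℝ) ≤ L * (η * X) := by
    have h1 : R ⊆ Finset.Ioc x1 ⌊Real.exp (r * η) * x1⌋₊ ∪ Finset.Icc ⌈Real.exp (-(r * η)) * x2⌉₊ x2 := by
      intro n hn
      rw [hR, Finset.mem_filter] at hn
      rw [Finset.mem_union, Finset.mem_Ioc, Finset.mem_Icc]
      rcases hn.2 with h | h
      · left
        exact ⟨h.1, Nat.le_floor h.2⟩
      · right
        exact ⟨Nat.ceil_le.2 h.1, h.2⟩
    have h2 := (Finset.card_le_card h1).trans (Finset.card_union_le _ _)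
    rw [Nat.card_Ioc, Nat.card_Icc] at h2
    have hx1le : x1 ≤ ⌊Real.exp (r * η) * x1⌋₊ := by
      apply Nat.le_floor
      have : 1 ≤ Real.exp (r * η) := Real.one_le_exp (by positivity)
      have h0 : (0 : ℝ) ≤ x1 := Nat.cast_nonneg _
      nlinarith
    have hx2le : ⌈Real.exp (-(r * η)) * x2⌉₊ ≤ x2 := by
      apply Nat.ceil_le.2
      have : Real.exp (-(r * η)) ≤ 1 := Real.exp_le_one_iff.2 (by
        have : 0 ≤ (r : ℝ) * η := by positivity
        linarith)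
      have h0 : (0 : ℝ) ≤ x2 := Nat.cast_nonneg _
      nlinarith
    have h3 : (R.card : ℝ) ≤ (((⌊Real.exp (r * η) * x1⌋₊ - x1) + (x2 + 1 - ⌈Real.exp (-(r * η)) * x2⌉₊) : ℕ) : ℝ) := by
      exact_mod_cast h2
    rw [Nat.cast_add, Nat.cast_sub hx1le, Nat.cast_sub (by omega)] at h3
    have h4 : (⌊Real.exp (r * η) * x1⌋₊ : ℝ) ≤ Real.exp (r * η) * x1 := Nat.floor_le (by positivity)
    have h5 : Real.exp (-(r * η)) * x2 ≤ (⌈Real.exp (-(r * η)) * x2⌉₊ : ℝ) := Nat.le_ceil _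
    push_cast at h3
    have h0 : (0 : ℝ) ≤ x1 := Nat.cast_nonneg _
    have h0' : (0 : ℝ) ≤ x2 := Nat.cast_nonneg _
    have h0r : (0 : ℝ) ≤ r * η := by positivity
    have h6 : (Real.exp (r * η) - 1) * x1 ≤ 2 * (r * η) * (9 * X) := by
      calc (Real.exp (r * η) - 1) * x1 ≤ (2 * (r * η)) * x1 := by
            refine mul_le_mul_of_nonneg_right (by linarith) h0
        _ ≤ _ := by gcongr
    have h7 : (1 - Real.exp (-(r * η))) * x2 ≤ (r * η) * (9 * X) := by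
      calc (1 - Real.exp (-(r * η))) * x2 ≤ (r * η) * x2 := by
            refine mul_le_mul_of_nonneg_right (by linarith) h0'
        _ ≤ _ := by gcongr
    calc (R.card : ℝ) ≤ 27 * (r * (η * X)) + 1 := by linarith
      _ ≤ (27 * r + 1) * (η * X) := by linarith
      _ ≤ L * (η * X) := mul_le_mul_of_nonneg_right hLr (by positivity)
  have hlog9 : 1 + Real.log ((9 * X : ℕ) : ℝ) ≤ L ^ 2 :=
    log_bd hL hL4 hX (by positivity) (by push_cast; linarith)
  have hlog90 : 0 ≤ Real.log ((9 * X : ℕ) : ℝ) := Real.log_natCast_nonneg _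
  have e4 : ∑ n ∈ R, (tr r (9 * X) n : ℝ) ^ 4 ≤ 9 * X * L ^ (2 * C) := by
    calc ∑ n ∈ R, (tr r (9 * X) n : ℝ) ^ 4 ≤ ∑ n ∈ Finset.Icc 1 (9 * X), (tr r (9 * X) n : ℝ) ^ 4 :=
          Finset.sum_le_sum_of_subset_of_nonneg (Finset.filter_subset _ _) fun _ _ _ => by positivity
      _ ≤ ((9 * X : ℕ) : ℝ) * (1 + Real.log ((9 * X : ℕ) : ℝ)) ^ C := hDV _ _ (by omega)
      _ ≤ ((9 * X : ℕ) : ℝ) * (L ^ 2) ^ C := by gcongr
      _ = _ := by rw [← pow_mul]; push_cast; ring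
  have e5 : ∑ n ∈ R, (tr r (9 * X) n : ℝ) ^ 2 ≤ X * (L ^ (C + 1) / L ^ D) := by
    have h1 : (∑ n ∈ R, (tr r (9 * X) n : ℝ) ^ 2) ^ 2 ≤ (X * (L ^ (C + 1) / L ^ D)) ^ 2 := by
      calc (∑ n ∈ R, (tr r (9 * X) n : ℝ) ^ 2) ^ 2 ≤ R.card * ∑ n ∈ R, ((tr r (9 * X) n : ℝ) ^ 2) ^ 2 :=
            sq_sum_le_card_mul_sum_sq
        _ = R.card * ∑ n ∈ R, (tr r (9 * X) n : ℝ) ^ 4 := by
            congr 1
            refine Finset.sum_congr rfl fun n _ => ?_
            ring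
        _ ≤ (L * (η * X)) * (9 * X * L ^ (2 * C)) := by
            refine mul_le_mul hcard e4 (Finset.sum_nonneg fun _ _ => by positivity) (by positivity)
        _ = 9 * (η * X ^ 2 * L ^ (2 * C + 1)) := by ring
        _ ≤ L * (η * X ^ 2 * L ^ (2 * C + 1)) := mul_le_mul_of_nonneg_right (by linarith) (by positivity)
        _ = (X * (L ^ (C + 1) / L ^ D)) ^ 2 := by
            rw [hηD, mul_pow, div_pow, ← pow_mul, ← pow_mul]
            rw [show D * 2 = 2 * D by ring, show (C + 1) * 2 = 2 * C + 1 + 1 by ring, pow_succ L (2 * C + 1)]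
            field_simp
    exact (pow_le_pow_iff_left₀ (Finset.sum_nonneg fun _ _ => by positivity) (by positivity) two_ne_zero).1 h1
  have e7 : B ^ (2 * r) ≤ L ^ (4 * r) := by
    calc B ^ (2 * r) ≤ (L ^ 2) ^ (2 * r) := pow_le_pow_left₀ hB0 hB2 _
      _ = L ^ (4 * r) := by rw [← pow_mul]; congr 1; ring
  have e6 : T2 - T1 + 8 * ((9 * X : ℕ) : ℝ) * (1 + Real.log ((9 * X : ℕ) : ℝ)) ≤ L ^ 3 * X := by
    have h1 : 8 * ((9 * X : ℕ) : ℝ) * (1 + Real.log ((9 * X : ℕ) : ℝ)) ≤ 8 * ((9 * X : ℕ) : ℝ) * L ^ 2 := by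
      gcongr
    push_cast at h1 ⊢
    have h2 : (73 : ℝ) * L ^ 2 * X ≤ L ^ 3 * X := by
      have : (73 : ℝ) * L ^ 2 ≤ L ^ 3 := by nlinarith [sq_nonneg L]
      exact mul_le_mul_of_nonneg_right this (by positivity)
    have h3 : (X : ℝ) ≤ L ^ 2 * X := by
      have : 1 ≤ L ^ 2 := by nlinarith
      nlinarith
    nlinarith
  have hsum0 : 0 ≤ ∑ n ∈ R, (tr r (9 * X) n : ℝ) ^ 2 := Finset.sum_nonneg fun _ _ => by positivity
  calc ∫ τ in T1..T2, ‖MP F Q τ‖ ^ 2 ≤ _ := key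
    _ ≤ (L ^ 3 * X) * (L ^ (4 * r) * (X * (L ^ (C + 1) / L ^ D))) :=
        mul_le_mul e6 (mul_le_mul e7 e5 hsum0 (by positivity)) (by positivity) (by positivity)
    _ = (X : ℝ) ^ 2 * (L ^ (4 + 4 * r + C) / L ^ D) := by
        rw [show 4 + 4 * r + C = 3 + 4 * r + (C + 1) by ring, pow_add, pow_add]
        ring

end Pool.Agent.Q297.CR
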