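import Pool.Agent.Q236.CR.Stm2

/-!
# Project CR, job OB, part 1: combinatorics of the coefficient box (helper297)
-/

set_option autoImplicit false

namespace Pool.Agent.Q297.CR

open Finset Filter
open Pool.Agent.Q236.CR
open Pool.Agent.H300R2.BH (fz)
open Pool.Agent.H300R2.FB (bx)

/-- the coefficient vector with first entry `a - (H + 1)`, middle `r` and last entry `t` -/
def mkc {s : ℕ} (H : ℕ) (r : Fin s → ℤ) (a : ℕ) (t : ℤ) : Fin (s + 2) → ℤ :=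
  Fin.cons ((a : ℤ) - ((H : ℤ) + 1)) (Fin.snoc (α := fun _ => ℤ) r t)

lemma pv_mkc (s H : ℕ) (g : ℕ → ℤ) (r : Fin s → ℤ) (a : ℕ) (t : ℤ) (n : ℕ) :
    pv s g (mkc H r a t) n =
      g n + ((a : ℤ) - ((H : ℤ) + 1)) + ∑ i : Fin s, r i * (n : ℤ) ^ ((i : ℕ) + 1) + t * (n : ℤ) ^ (s + 1) := by
  unfold pv mkc
  rw [Fin.sum_univ_succ, Fin.sum_univ_castSucc]
  simp only [Fin.cons_zero, Fin.cons_succ, Fin.snoc_castSucc, Fin.snoc_last, Fin.val_zero, pow_zero, mul_one,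
    Fin.val_succ, Fin.val_castSucc, Fin.val_last]
  ring

lemma pv_bval (s H : ℕ) (g : ℕ → ℤ) (r : Fin s → ℤ) (a d : ℕ) (σ : ℤ) (n : ℕ) :
    pv s g (mkc H r a (σ * d)) n = (g n - ((H : ℤ) + 1)) + bval (s + 1) r σ a d n := by
  rw [pv_mkc]
  unfold bval
  show _ = (g n - ((H : ℤ) + 1)) + ((a : ℤ) + ∑ i : Fin s, r i * (n : ℤ) ^ ((i : ℕ) + 1) +
    σ * d * (n : ℤ) ^ (s + 1))
  ring

lemma sum_BX (s H : ℕ) (Θ : (Fin (s + 2) → ℤ) → ℝ) :
    ∑ c ∈ BX s H, Θ c = ∑ t ∈ Finset.Icc (-(H : ℤ)) H,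
      ∑ r ∈ bx (s + 1) (fun _ => H), ∑ a ∈ Finset.Ioc 0 (0 + (2 * H + 1)), Θ (mkc H r a t) := by
  rw [← Finset.sum_product', ← Finset.sum_product']
  symm
  refine Finset.sum_nbij' (fun p : (ℤ × (Fin (s + 1 - 1) → ℤ)) × ℕ => mkc H p.1.2 p.2 p.1.1)
    (fun c : Fin (s + 2) → ℤ => ((c (Fin.last (s + 1)), fun i : Fin s => c i.castSucc.succ),
      (c 0 + ((H : ℤ) + 1)).toNat)) ?_ ?_ ?_ ?_ ?_
  · rintro ⟨⟨t, r⟩, a⟩ h
    simp only [Finset.mem_product] at h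
    obtain ⟨⟨ht, hr⟩, ha⟩ := h
    unfold BX
    rw [Fintype.mem_piFinset]
    intro l
    show mkc H r a t l ∈ _
    rw [Finset.mem_Icc] at ht
    unfold bx at hr
    rw [Fintype.mem_piFinset] at hr
    rw [Finset.mem_Ioc] at ha
    unfold mkc
    refine Fin.cases ?_ (fun l => ?_) l
    · rw [Fin.cons_zero, Finset.mem_Icc]; omega
    · rw [Fin.cons_succ]
      refine Fin.lastCases ?_ (fun l => ?_) l
      · have h5 : (Fin.snoc (α := fun _ => ℤ) (r : Fin s → ℤ) t : Fin (s + 1) → ℤ) (Fin.last s) = t :=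
          Fin.snoc_last (α := fun _ => ℤ) t (r : Fin s → ℤ)
        show (Fin.snoc (α := fun _ => ℤ) (r : Fin s → ℤ) t : Fin (s + 1) → ℤ) (Fin.last s) ∈ _
        rw [h5, Finset.mem_Icc]; exact ht
      · have h5 : (Fin.snoc (α := fun _ => ℤ) (r : Fin s → ℤ) t : Fin (s + 1) → ℤ) l.castSucc = (r : Fin s → ℤ) l :=
          Fin.snoc_castSucc (α := fun _ => ℤ) t (r : Fin s → ℤ) l
        show (Fin.snoc (α := fun _ => ℤ) (r : Fin s → ℤ) t : Fin (s + 1) → ℤ) l.castSucc ∈ _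
        rw [h5]; exact hr l
  · intro c hc
    unfold BX at hc
    rw [Fintype.mem_piFinset] at hc
    simp only [Finset.mem_product]
    refine ⟨⟨hc _, ?_⟩, ?_⟩
    · unfold bx
      rw [Fintype.mem_piFinset]
      intro i
      exact hc _
    · have := hc 0
      rw [Finset.mem_Icc] at this
      rw [Finset.mem_Ioc]
      omega
  · rintro ⟨⟨t, r⟩, a⟩ h
    simp only [Finset.mem_product] at h
    have ha := h.2
    rw [Finset.mem_Ioc] at ha
    simp only [mkc, Prod.mk.injEq]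
    refine ⟨⟨?_, ?_⟩, ?_⟩
    · rw [← Fin.succ_last, Fin.cons_succ, Fin.snoc_last]
    · funext i
      rw [Fin.cons_succ, Fin.snoc_castSucc]
    · rw [Fin.cons_zero]; omega
  · intro c hc
    unfold BX at hc
    rw [Fintype.mem_piFinset] at hc
    have h0 := hc 0
    rw [Finset.mem_Icc] at h0
    funext l
    show mkc H (fun i : Fin s => c i.castSucc.succ) (c 0 + ((H : ℤ) + 1)).toNat (c (Fin.last (s + 1))) l = c l
    unfold mkc
    refine Fin.cases ?_ (fun l => ?_) l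
    · rw [Fin.cons_zero]; omega
    · rw [Fin.cons_succ]
      refine Fin.lastCases ?_ (fun l => ?_) l
      · rw [Fin.snoc_last, Fin.succ_last]
      · rw [Fin.snoc_castSucc]
  · intro p _
    rfl

lemma card_bx (s H : ℕ) : (((bx (s + 1) (fun _ => H)).card : ℕ) : ℝ) = (2 * (H : ℝ) + 1) ^ s := by
  unfold bx
  rw [Fintype.card_piFinset]
  have h1 : (Finset.Icc (-(H : ℤ)) H).card = 2 * H + 1 := by
    rw [Int.card_Icc]; omega
  simp only [h1, Finset.prod_const, Finset.card_univ, Fintype.card_fin]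
  push_cast
  show (2 * (H : ℝ) + 1) ^ (s + 1 - 1) = _
  rw [Nat.add_sub_cancel]

lemma card_BX (s H : ℕ) : (((BX s H).card : ℕ) : ℝ) = (2 * (H : ℝ) + 1) ^ (s + 2) := by
  unfold BX
  rw [Fintype.card_piFinset]
  have h1 : (Finset.Icc (-(H : ℤ)) H).card = 2 * H + 1 := by
    rw [Int.card_Icc]; omega
  simp only [h1, Finset.prod_const, Finset.card_univ, Fintype.card_fin]
  push_cast
  rfl

/-- a symmetric sum -/
lemma sum_symm (Φ : ℤ → ℝ) (N : ℕ) :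
    ∑ t ∈ Finset.Icc (-(N : ℤ)) N, Φ t = Φ 0 + ∑ d ∈ Finset.Ioc 0 N, (Φ (1 * d) + Φ (-1 * d)) := by
  induction N with
  | zero => simp
  | succ N ih =>
    have h1 : Finset.Icc (-((N + 1 : ℕ) : ℤ)) ((N + 1 : ℕ) : ℤ) =
        insert (((N + 1 : ℕ) : ℤ)) (insert (-((N + 1 : ℕ) : ℤ)) (Finset.Icc (-(N : ℤ)) N)) := by
      ext t
      simp only [Finset.mem_Icc, Finset.mem_insert]
      push_cast
      omega
    rw [h1, Finset.sum_insert, Finset.sum_insert, ih, Finset.sum_Ioc_succ_top (by omega)]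
    · push_cast
      ring_nf
    · simp only [Finset.mem_Icc, not_and_or]
      left; push_cast; omega
    · simp only [Finset.mem_Icc, Finset.mem_insert, not_or, not_and_or]
      push_cast
      constructor
      · omega
      · right; omega

lemma sum_dyadic (Ψ : ℕ → ℝ) (M : ℕ) (I : ℕ) :
    ∑ d ∈ Finset.Ioc 0 (2 ^ I * M), Ψ d =
      ∑ d ∈ Finset.Ioc 0 M, Ψ d + ∑ i ∈ Finset.range I, ∑ d ∈ Finset.Ioc (2 ^ i * M) (2 * (2 ^ i * M)), Ψ d := by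
  induction I with
  | zero => simp
  | succ I ih =>
    rw [Finset.sum_range_succ, ← add_assoc, ← ih]
    have h1 : 2 ^ (I + 1) * M = 2 * (2 ^ I * M) := by ring
    rw [h1, Finset.sum_Ioc_consecutive Ψ (Nat.zero_le _) (by omega)]

/-- covering by dyadic blocks -/
lemma cover (Φ : ℤ → ℝ) (hΦ : ∀ t, 0 ≤ Φ t) (H M I : ℕ) (h : H ≤ 2 ^ I * M) :
    ∑ t ∈ Finset.Icc (-(H : ℤ)) H, Φ t ≤ Φ 0 + ∑ d ∈ Finset.Ioc 0 M, (Φ (1 * d) + Φ (-1 * d)) +
      ∑ i ∈ Finset.range I, (∑ d ∈ Finset.Ioc (2 ^ i * M) (2 * (2 ^ i * M)), Φ (1 * d) +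
        ∑ d ∈ Finset.Ioc (2 ^ i * M) (2 * (2 ^ i * M)), Φ (-1 * d)) := by
  rw [sum_symm, add_assoc]
  have h1 : ∑ d ∈ Finset.Ioc 0 H, (Φ (1 * d) + Φ (-1 * d)) ≤
      ∑ d ∈ Finset.Ioc 0 (2 ^ I * M), (Φ (1 * d) + Φ (-1 * d)) :=
    Finset.sum_le_sum_of_subset_of_nonneg (Finset.Ioc_subset_Ioc le_rfl h)
      fun d _ _ => add_nonneg (hΦ _) (hΦ _)
  rw [sum_dyadic (fun d => Φ (1 * d) + Φ (-1 * d)) M I] at h1
  simp only [Finset.sum_add_distrib] at h1 ⊢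
  linarith

/-- the values of the polynomials -/
lemma pv_le (s H K : ℕ) (g : ℕ → ℤ) (c : Fin (s + 2) → ℤ) (hc : c ∈ BX s H) (n : ℕ) (hn : n ∈ Finset.Icc 1 K)
    (hg : |g n| ≤ H * K ^ (s + 1)) : |pv s g c n| ≤ ((s + 3 : ℕ) : ℤ) * (H * K ^ (s + 1)) := by
  rw [Finset.mem_Icc] at hn
  unfold BX at hc
  rw [Fintype.mem_piFinset] at hc
  unfold pv
  have h1 : |∑ l : Fin (s + 2), c l * (n : ℤ) ^ (l : ℕ)| ≤ ((s + 2 : ℕ) : ℤ) * (H * K ^ (s + 1)) := by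
    calc |∑ l : Fin (s + 2), c l * (n : ℤ) ^ (l : ℕ)| ≤ ∑ l : Fin (s + 2), |c l * (n : ℤ) ^ (l : ℕ)| :=
          Finset.abs_sum_le_sum_abs _ _
      _ ≤ ∑ _l : Fin (s + 2), ((H : ℤ) * K ^ (s + 1)) := by
          refine Finset.sum_le_sum fun l _ => ?_
          rw [abs_mul, abs_pow, Nat.abs_cast]
          have h2 := Finset.mem_Icc.1 (hc l)
          have h3 : |c l| ≤ (H : ℤ) := abs_le.2 h2
          have h4 : (n : ℤ) ^ (l : ℕ) ≤ (K : ℤ) ^ (s + 1) := by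
            calc (n : ℤ) ^ (l : ℕ) ≤ (K : ℤ) ^ (l : ℕ) := by
                  apply pow_le_pow_left₀ (by positivity); exact_mod_cast hn.2
              _ ≤ (K : ℤ) ^ (s + 1) := by
                  apply pow_le_pow_right₀
                  · have : 1 ≤ K := hn.1.trans hn.2
                    exact_mod_cast this
                  · have := l.2; omega
          exact mul_le_mul h3 h4 (by positivity) (by positivity)
      _ = _ := by simp
  calc |g n + ∑ l : Fin (s + 2), c l * (n : ℤ) ^ (l : ℕ)| ≤ |g n| + |∑ l : Fin (s + 2), c l * (n : ℤ) ^ (l : ℕ)| :=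
        abs_add_le _ _
    _ ≤ H * K ^ (s + 1) + ((s + 2 : ℕ) : ℤ) * (H * K ^ (s + 1)) := add_le_add hg h1
    _ = _ := by push_cast; ring

/-- the values of the box polynomials -/
lemma val_le (s H K : ℕ) (g : ℕ → ℤ) (r : Fin s → ℤ) (hr : r ∈ bx (s + 1) (fun _ => H)) (a d : ℕ) (σ : ℤ)
    (hσ : σ = 1 ∨ σ = -1) (ha : a ∈ Finset.Ioc 0 (0 + (2 * H + 1))) (hd : d ≤ 2 * H) (n : ℕ)
    (hn1 : 1 ≤ n) (hn2 : n ≤ K) (hg : |g n| ≤ H * K ^ (s + 1)) :
    |(g n - ((H : ℤ) + 1)) + bval (s + 1) r σ a d n| ≤ ((s + 4 : ℕ) : ℤ) * (H * K ^ (s + 1)) := by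
  unfold bx at hr
  rw [Fintype.mem_piFinset] at hr
  rw [Finset.mem_Ioc] at ha
  have hK : (1 : ℤ) ≤ K := by exact_mod_cast hn1.trans hn2
  have hpow : ∀ l : ℕ, l ≤ s + 1 → (n : ℤ) ^ l ≤ (K : ℤ) ^ (s + 1) := by
    intro l hl
    calc (n : ℤ) ^ l ≤ (K : ℤ) ^ l := by
          apply pow_le_pow_left₀ (by positivity); exact_mod_cast hn2
      _ ≤ (K : ℤ) ^ (s + 1) := pow_le_pow_right₀ hK hl
  have hHK : (H : ℤ) ≤ H * K ^ (s + 1) := by
    have h1 : (1 : ℤ) ≤ (K : ℤ) ^ (s + 1) := one_le_pow₀ hK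
    nlinarith [Int.natCast_nonneg H]
  have e1 : (g n - ((H : ℤ) + 1)) + bval (s + 1) r σ a d n =
      g n + (((a : ℤ) - ((H : ℤ) + 1)) + (∑ i : Fin s, r i * (n : ℤ) ^ ((i : ℕ) + 1) +
        σ * d * (n : ℤ) ^ (s + 1))) := by
    unfold bval
    show _ + ((a : ℤ) + ∑ i : Fin s, r i * (n : ℤ) ^ ((i : ℕ) + 1) + σ * d * (n : ℤ) ^ (s + 1)) = _
    ring
  rw [e1]
  have h1 : |(a : ℤ) - ((H : ℤ) + 1)| ≤ H * K ^ (s + 1) := by
    refine le_trans ?_ hHK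
    rw [abs_le]; omega
  have h2 : |∑ i : Fin s, r i * (n : ℤ) ^ ((i : ℕ) + 1)| ≤ (s : ℤ) * (H * K ^ (s + 1)) := by
    calc |∑ i : Fin s, r i * (n : ℤ) ^ ((i : ℕ) + 1)| ≤ ∑ i : Fin s, |r i * (n : ℤ) ^ ((i : ℕ) + 1)| :=
          Finset.abs_sum_le_sum_abs _ _
      _ ≤ ∑ _l : Fin s, ((H : ℤ) * K ^ (s + 1)) := by
          refine Finset.sum_le_sum fun l _ => ?_
          rw [abs_mul, abs_pow, Nat.abs_cast]
          have h3 : |r l| ≤ (H : ℤ) := abs_le.2 (Finset.mem_Icc.1 (hr l))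
          exact mul_le_mul h3 (hpow _ (by have := l.2; omega)) (by positivity) (by positivity)
      _ = _ := by simp
  have h3 : |σ * d * (n : ℤ) ^ (s + 1)| ≤ 2 * (H * K ^ (s + 1)) := by
    have h4 : |σ| = 1 := by rcases hσ with h | h <;> rw [h] <;> simp
    rw [abs_mul, abs_mul, h4, one_mul, Nat.abs_cast, abs_pow, Nat.abs_cast]
    calc (d : ℤ) * (n : ℤ) ^ (s + 1) ≤ (2 * H) * (K : ℤ) ^ (s + 1) :=
          mul_le_mul (by exact_mod_cast hd) (hpow _ le_rfl) (by positivity) (by positivity)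
      _ = _ := by ring
  calc _ ≤ |g n| + (|(a : ℤ) - ((H : ℤ) + 1)| + (|∑ i : Fin s, r i * (n : ℤ) ^ ((i : ℕ) + 1)| +
        |σ * d * (n : ℤ) ^ (s + 1)|)) := by
        refine (abs_add_le _ _).trans (add_le_add le_rfl ?_)
        refine (abs_add_le _ _).trans (add_le_add le_rfl ?_)
        exact abs_add_le _ _
    _ ≤ H * K ^ (s + 1) + (H * K ^ (s + 1) + ((s : ℤ) * (H * K ^ (s + 1)) + 2 * (H * K ^ (s + 1)))) :=
        add_le_add hg (add_le_add h1 (add_le_add h2 h3))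
    _ = _ := by push_cast; ring

end Pool.Agent.Q297.CR
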